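import Pool.Agent.H89.Arr.Basic

open scoped LinearAlgebra.Projectivization
open Projectivization

namespace Pool.Agent.H89.Arr

open scoped Classical in
lemma gv_insert {A : Finset RP2} {l : RP2} (hl : l ∉ A) :
    gv (insert l A) = gv A + ((V A).filter (fun p => p.orthogonal l)).card := by
  have h1 : gv A = ∑ p ∈ V (insert l A), (mult A p - 2) :=
    sum_over_bigger (V_subset_insert A l) (fun j => j - 2) rfl rfl
  have h2 : ((V A).filter (fun p => p.orthogonal l)).card =
      ∑ p ∈ V (insert l A), if (p.orthogonal l ∧ 2 ≤ mult A p) then 1 else 0 := by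
    rw [Finset.card_eq_sum_ones, ← Finset.sum_filter]
    congr 1
    ext p
    simp only [Finset.mem_filter]
    constructor
    · rintro ⟨h, h'⟩
      exact ⟨V_subset_insert A l h, h', mem_V_iff.1 h⟩
    · rintro ⟨_, h', h''⟩
      exact ⟨mem_V_iff.2 h'', h'⟩
  rw [h1, h2, ← Finset.sum_add_distrib]
  unfold gv
  apply Finset.sum_congr rfl
  intro p hp
  rw [mult_insert hl p]
  have hp2 := mem_V_iff.1 hp
  rw [mult_insert hl p] at hp2
  by_cases h : p.orthogonal l
  · rw [if_pos h] at hp2 ⊢
    by_cases h' : 2 ≤ mult A p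
    · rw [if_pos ⟨h, h'⟩]; omega
    · rw [if_neg (fun hh => h' hh.2)]; omega
  · rw [if_neg h] at hp2 ⊢
    rw [if_neg (fun hh => h hh.1)]; omega

open scoped Classical in
lemma ev_insert {A : Finset RP2} {l : RP2} (hl : l ∉ A) :
    ev (insert l A) = ev A + ∑ p ∈ (V A).filter (fun p => p.orthogonal l), (mult A p - 2) := by
  have h1 : ev A = ∑ p ∈ V (insert l A), (mult A p - 2).choose 2 :=
    sum_over_bigger (V_subset_insert A l) (fun j => (j - 2).choose 2) rfl rfl
  have h2 : ∑ p ∈ (V A).filter (fun p => p.orthogonal l), (mult A p - 2) =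
      ∑ p ∈ V (insert l A), if (p.orthogonal l ∧ 2 ≤ mult A p) then (mult A p - 2) else 0 := by
    rw [← Finset.sum_filter]
    congr 1
    ext p
    simp only [Finset.mem_filter]
    constructor
    · rintro ⟨h, h'⟩
      exact ⟨V_subset_insert A l h, h', mem_V_iff.1 h⟩
    · rintro ⟨_, h', h''⟩
      exact ⟨mem_V_iff.2 h'', h'⟩
  rw [h1, h2, ← Finset.sum_add_distrib]
  unfold ev
  apply Finset.sum_congr rfl
  intro p hp
  rw [mult_insert hl p]
  have hp2 := mem_V_iff.1 hp
  rw [mult_insert hl p] at hp2
  by_cases h : p.orthogonal l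
  · rw [if_pos h] at hp2 ⊢
    by_cases h' : 2 ≤ mult A p
    · rw [if_pos ⟨h, h'⟩]
      obtain ⟨i, hi⟩ : ∃ i, mult A p = i + 2 := ⟨mult A p - 2, by omega⟩
      rw [hi]
      simp only [Nat.add_sub_cancel]
      rw [show i + 2 + 1 - 2 = i + 1 by omega, Nat.choose_succ_succ' i 1, Nat.choose_one_right]
      ring
    · rw [if_neg (fun hh => h' hh.2)]
      have : mult A p = 1 := by omega
      rw [this]; rfl
  · rw [if_neg h, if_neg (fun hh => h hh.1)]; rfl

/-! ### Genericity -/

lemma infinite_lines (p : RP2) : Set.Infinite {l : RP2 | p.orthogonal l} := by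
  induction p using Projectivization.ind with | h v hv =>
  have key : ∀ w : ℝ → (Fin 3 → ℝ), ∀ i : Fin 3, (∀ t, v ⬝ᵥ w t = 0) → (∀ t, w t i = 1) →
      (Function.Injective w) → Set.Infinite {l : RP2 | (Projectivization.mk ℝ v hv).orthogonal l} := by
    intro w i h1 h2 h3
    have hne : ∀ t, w t ≠ 0 := by
      intro t h
      have := h2 t
      rw [h] at this
      simp at this
    have hinj : Function.Injective (fun t => (Projectivization.mk ℝ (w t) (hne t) : RP2)) := by
      intro s t hst
      simp only [] at hst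
      rw [Projectivization.mk_eq_mk_iff'] at hst
      obtain ⟨a, ha⟩ := hst
      have h4 := congrFun ha i
      rw [Pi.smul_apply, h2, h2, smul_eq_mul, mul_one] at h4
      rw [h4, one_smul] at ha
      exact (h3 ha).symm
    refine Set.infinite_of_injective_forall_mem hinj ?_
    intro t
    rw [Set.mem_ofPred_eq, orthogonal_mk]
    exact h1 t
  by_cases h0 : v 0 = 0
  · by_cases h1 : v 1 = 0
    · have h2 : v 2 ≠ 0 := by
        intro h2
        apply hv
        ext i
        fin_cases i <;> simp [h0, h1, h2]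
      refine key (fun t => ![t, 1, 0]) 1 ?_ ?_ ?_
      · intro t; simp [dotProduct, Fin.sum_univ_three, h0, h1]
      · intro t; simp
      · intro s t hst; simpa using congrFun hst 0
    · refine key (fun t => ![1, -(v 0 + v 2 * t) / v 1, t]) 0 ?_ ?_ ?_
      · intro t; simp [dotProduct, Fin.sum_univ_three]; field_simp; ring
      · intro t; simp
      · intro s t hst; simpa using congrFun hst 2
  · refine key (fun t => ![-(v 1 + v 2 * t) / v 0, 1, t]) 1 ?_ ?_ ?_
    · intro t; simp [dotProduct, Fin.sum_univ_three]; field_simp; ring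
    · intro t; simp
    · intro s t hst; simpa using congrFun hst 2

lemma exists_line (A : Finset RP2) (p : RP2) :
    ∃ l, l ∉ A ∧ p.orthogonal l ∧ ∀ q ∈ V A, q ≠ p → ¬ q.orthogonal l := by
  classical
  have h1 : (↑(A ∪ (V A).image (fun q => cross p q)) : Set RP2).Finite := Finset.finite_toSet _
  obtain ⟨l, hl, hl'⟩ := ((infinite_lines p).sdiff h1).nonempty
  simp only [Finset.coe_union, Finset.coe_image, Set.mem_union, Finset.mem_coe, Set.mem_image,
    not_or, not_exists, not_and] at hl'
  refine ⟨l, hl'.1, hl, ?_⟩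
  intro q hq hqp hql
  apply hl'.2 q hq
  exact (eq_cross (Ne.symm hqp) (orthogonal_comm.1 hl) (orthogonal_comm.1 hql)).symm

lemma exists_point (A : Finset RP2) : ∃ p : RP2, ∀ l ∈ A, ¬ p.orthogonal l := by
  classical
  have hp : ∃ p : RP2, True := by
    refine ⟨Projectivization.mk ℝ ![1, 0, 0] ?_, trivial⟩
    intro h
    have := congrFun h 0
    simp at this
  obtain ⟨p0, -⟩ := hp
  obtain ⟨m, hm, -, -⟩ := exists_line A p0
  have h1 : (↑(A.image (fun q => cross m q)) : Set RP2).Finite := Finset.finite_toSet _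
  obtain ⟨p, hp, hp'⟩ := ((infinite_lines m).sdiff h1).nonempty
  refine ⟨p, ?_⟩
  intro l hl hpl
  apply hp'
  simp only [Finset.coe_image, Set.mem_image, Finset.mem_coe]
  refine ⟨l, hl, ?_⟩
  have hml : m ≠ l := fun h => hm (h ▸ hl)
  exact (eq_cross hml (orthogonal_comm.1 hp) hpl).symm

/-- Realisable triples (number of lines, excess, second excess). -/
def Rz (n g e : ℕ) : Prop := ∃ A : Finset RP2, A.card = n ∧ gv A = g ∧ ev A = e

lemma Rz_zero : Rz 0 0 0 := by
  refine ⟨∅, rfl, ?_, ?_⟩
  · simp [gv, V]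
  · simp [ev, V]

/-- add a line through `p` avoiding all other vertices -/
lemma add_line (A : Finset RP2) (p : RP2) : ∃ A' : Finset RP2, A'.card = A.card + 1 ∧
    mult A' p = mult A p + 1 ∧ gv A' = gv A + (if 2 ≤ mult A p then 1 else 0) ∧
    ev A' = ev A + (mult A p - 2) := by
  classical
  obtain ⟨l, hl, hpl, h⟩ := exists_line A p
  have hf : (V A).filter (fun q => q.orthogonal l) = if 2 ≤ mult A p then {p} else ∅ := by
    ext q
    simp only [Finset.mem_filter]
    split_ifs with h2
    · simp only [Finset.mem_singleton]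
      constructor
      · rintro ⟨hq, hql⟩
        by_contra hne
        exact h q hq hne hql
      · rintro rfl
        exact ⟨mem_V_iff.2 h2, hpl⟩
    · simp only [Finset.notMem_empty, iff_false, not_and]
      intro hq hql
      by_cases hqp : q = p
      · subst hqp
        exact h2 (mem_V_iff.1 hq)
      · exact h q hq hqp hql
  refine ⟨insert l A, Finset.card_insert_of_notMem hl, ?_, ?_, ?_⟩
  · rw [mult_insert hl, if_pos hpl]
  · rw [gv_insert hl, hf]
    split_ifs <;> simp
  · rw [ev_insert hl, hf]
    split_ifs with h2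
    · simp
    · simp only [Finset.sum_empty]; omega

lemma Rz_generic {n g e : ℕ} (h : Rz n g e) : Rz (n + 1) g e := by
  obtain ⟨A, h1, h2, h3⟩ := h
  obtain ⟨p, hp⟩ := exists_point A
  have hm : mult A p = 0 := by
    classical
    unfold mult
    rw [Finset.card_eq_zero, Finset.filter_eq_empty_iff]
    exact fun l hl => hp l hl
  obtain ⟨A', h4, h5, h6, h7⟩ := add_line A p
  rw [hm] at h6 h7
  exact ⟨A', by omega, by simpa [h2] using h6, by simpa [h3] using h7⟩

lemma Rz_generics {n g e : ℕ} (h : Rz n g e) (m : ℕ) (hm : n ≤ m) : Rz m g e := by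
  obtain ⟨k, rfl⟩ := Nat.exists_eq_add_of_le hm
  clear hm
  induction k with
  | zero => exact h
  | succ k ih => exact Rz_generic ih

lemma Rz_pencil {n g e : ℕ} (h : Rz n g e) (x : ℕ) : Rz (n + (x + 2)) (g + x) (e + x.choose 2) := by
  obtain ⟨A, h1, h2, h3⟩ := h
  obtain ⟨p, hp⟩ := exists_point A
  have hm : mult A p = 0 := by
    classical
    unfold mult
    rw [Finset.card_eq_zero, Finset.filter_eq_empty_iff]
    exact fun l hl => hp l hl
  have key : ∀ s : ℕ, ∃ A' : Finset RP2, A'.card = n + s ∧ mult A' p = s ∧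
      gv A' = g + (s - 2) ∧ ev A' = e + (s - 2).choose 2 := by
    intro s
    induction s with
    | zero => exact ⟨A, by omega, hm, by simpa using h2, by simpa using h3⟩
    | succ s ih =>
      obtain ⟨B, hB1, hB2, hB3, hB4⟩ := ih
      obtain ⟨A', h4, h5, h6, h7⟩ := add_line B p
      rw [hB2] at h5 h6 h7
      refine ⟨A', by omega, h5, ?_, ?_⟩
      · rw [h6, hB3]
        split_ifs with h2 <;> omega
      · rw [h7, hB4]
        by_cases hs : 2 ≤ s
        · obtain ⟨i, rfl⟩ : ∃ i, s = i + 2 := ⟨s - 2, by omega⟩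
          simp only [Nat.add_sub_cancel]
          rw [show i + 2 + 1 - 2 = i + 1 by omega, Nat.choose_succ_succ' i 1, Nat.choose_one_right]
          ring
        · have h8 : s - 2 = 0 := by omega
          have h9 : s + 1 - 2 = 0 := by omega
          rw [h8, h9]; rfl
  obtain ⟨A', h4, -, h6, h7⟩ := key (x + 2)
  exact ⟨A', h4, by simpa using h6, by simpa using h7⟩

/-- Adding pencils according to a multiset of positive excesses. -/
lemma Rz_multiset {n g e : ℕ} (h : Rz n g e) (s : Multiset ℕ) :
    Rz (n + (s.map (fun x => x + 2)).sum) (g + s.sum) (e + (s.map (fun x => x.choose 2)).sum) := by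
  induction s using Multiset.induction_on with
  | empty => simpa using h
  | cons a s ih =>
    have := Rz_pencil ih a
    simp only [Multiset.map_cons, Multiset.sum_cons]
    convert this using 1 <;> ring

end Pool.Agent.H89.Arr
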