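import Pool.Agent.H89.Arr.Poly

open scoped LinearAlgebra.Projectivization
open Projectivization

namespace Pool.Agent.H89.Arr.Poly

set_option linter.unusedSectionVars false

variable (m : ℕ) [NeZero m]

open scoped Classical in
/-- the tangents -/
noncomputable def T : Finset RP2 := (Finset.univ : Finset (ZMod m)).image (a m)

open scoped Classical in
/-- the central lines -/
noncomputable def B (S : Finset (ZMod m)) : Finset RP2 := S.image (b m)

open scoped Classical in
lemma mult_T (p : RP2) :
    mult (T m) p = ((Finset.univ : Finset (ZMod m)).filter (fun j => p.orthogonal (a m j))).card := by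
  unfold mult T
  rw [Finset.filter_image, Finset.card_image_of_injective _ (a_inj m)]

open scoped Classical in
lemma mult_B (S : Finset (ZMod m)) (p : RP2) :
    mult (B m S) p = (S.filter (fun j => p.orthogonal (b m j))).card := by
  unfold mult B
  rw [Finset.filter_image, Finset.card_image_of_injective _ (b_inj m)]

lemma disj (S : Finset (ZMod m)) : Disjoint (T m) (B m S) := by
  classical
  rw [Finset.disjoint_left]
  intro x hx hx'
  unfold T at hx
  unfold B at hx'
  rw [Finset.mem_image] at hx hx'
  obtain ⟨j, -, rfl⟩ := hx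
  obtain ⟨i, -, h⟩ := hx'
  exact a_ne_b m j i h.symm

open scoped Classical in
lemma mult_union (S : Finset (ZMod m)) (p : RP2) :
    mult (T m ∪ B m S) p = mult (T m) p + mult (B m S) p := by
  unfold mult
  rw [Finset.filter_union, Finset.card_union_of_disjoint]
  exact Finset.disjoint_filter_filter (disj m S)

lemma mult_T_le (p : RP2) : mult (T m) p ≤ 2 := by
  classical
  by_contra h
  have h' : 2 < mult (T m) p := by omega
  rw [mult_T, Finset.two_lt_card] at h'
  obtain ⟨x, hx, y, hy, z, hz, hxy, hxz, hyz⟩ := h'
  simp only [Finset.mem_filter, Finset.mem_univ, true_and] at hx hy hz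
  rcases tangents m hxy hx hy hz with h | h
  · exact hxz h.symm
  · exact hyz h.symm

lemma mult_T_O : mult (T m) O = 0 := by
  classical
  rw [mult_T, Finset.card_eq_zero, Finset.filter_eq_empty_iff]
  intro j _
  exact O_not_ort_a m j

lemma mult_B_O (S : Finset (ZMod m)) : mult (B m S) O = S.card := by
  classical
  rw [mult_B, Finset.filter_true_of_mem]
  intro j _
  exact O_ort_b m j

lemma mult_B_le (S : Finset (ZMod m)) {p : RP2} (hp : p ≠ O) : mult (B m S) p ≤ 1 := by
  classical
  rw [mult_B, Finset.card_le_one]
  intro i hi j hj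
  simp only [Finset.mem_filter] at hi hj
  by_contra hne
  have hne' : b m i ≠ b m j := fun h => hne (b_inj m h)
  apply hp
  rw [eq_cross hne' hi.2 hj.2, eq_cross hne' (O_ort_b m i) (O_ort_b m j)]

lemma eq_P {p : RP2} {j i : ZMod m} (h1 : p.orthogonal (b m i)) (h2 : p.orthogonal (a m j)) :
    p = P m j i := by
  have hne := a_ne_b m j i
  rw [eq_cross hne h2 h1, eq_cross hne ((P_ort_a m j i j).2 (Or.inl rfl)) (P_ort_b m j i)]

open scoped Classical in
/-- points on the central line `i` on two tangents -/
noncomputable def D (i : ZMod m) : Finset RP2 :=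
  ((Finset.univ : Finset (ZMod m)).filter (fun j => j + j ≠ i)).image (fun j => P m j i)

lemma mem_D {i : ZMod m} {p : RP2} : p ∈ D m i ↔ p.orthogonal (b m i) ∧ mult (T m) p = 2 := by
  classical
  unfold D
  rw [Finset.mem_image]
  constructor
  · rintro ⟨j, hj, rfl⟩
    simp only [Finset.mem_filter, Finset.mem_univ, true_and] at hj
    refine ⟨P_ort_b m j i, ?_⟩
    have h1 : 1 < mult (T m) (P m j i) := by
      rw [mult_T, Finset.one_lt_card]
      refine ⟨j, ?_, i - j, ?_, ?_⟩
      · simp only [Finset.mem_filter, Finset.mem_univ, true_and]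
        exact (P_ort_a m j i j).2 (Or.inl rfl)
      · simp only [Finset.mem_filter, Finset.mem_univ, true_and]
        exact (P_ort_a m j i _).2 (Or.inr (by ring))
      · intro h
        apply hj
        nth_rw 2 [h]
        ring
    have := mult_T_le m (P m j i)
    omega
  · rintro ⟨h1, h2⟩
    have h3 : 1 < mult (T m) p := by omega
    rw [mult_T, Finset.one_lt_card] at h3
    obtain ⟨j, hj, l, hl, hne⟩ := h3
    simp only [Finset.mem_filter, Finset.mem_univ, true_and] at hj hl
    have hp := eq_P m h1 hj
    refine ⟨j, ?_, hp.symm⟩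
    simp only [Finset.mem_filter, Finset.mem_univ, true_and]
    rw [hp] at hl
    rcases (P_ort_a m j i l).1 hl with h | h
    · exact absurd h hne
    · intro h'
      apply hne
      rw [← h'] at h
      exact (add_left_cancel h).symm

lemma two_inj (hm : Odd m) {x y : ZMod m} (h : x + x = y + y) : x = y := by
  have hu : IsUnit (2 : ZMod m) := by
    have : IsUnit ((2 : ℕ) : ZMod m) := by
      rw [ZMod.isUnit_iff_coprime]
      exact Nat.coprime_two_left.2 hm
    simpa using this
  have h2 : (2 : ZMod m) * x = 2 * y := by rw [two_mul, two_mul, h]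
  exact hu.mul_left_cancel h2

lemma card_filter_ne (hm : Odd m) (i : ZMod m) [DecidableEq (ZMod m)] :
    ((Finset.univ : Finset (ZMod m)).filter (fun j => j + j ≠ i)).card = m - 1 := by
  have hinj : Function.Injective (fun x : ZMod m => x + x) := fun x y h => two_inj m hm h
  have hsurj := Finite.surjective_of_injective hinj
  obtain ⟨j0, hj0⟩ := hsurj i
  simp only at hj0
  have h1 : (Finset.univ : Finset (ZMod m)).filter (fun j => j + j ≠ i) =
      Finset.univ.erase j0 := by
    ext j
    simp only [Finset.mem_filter, Finset.mem_univ, true_and, Finset.mem_erase, and_true]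
    constructor
    · rintro h rfl
      exact h hj0
    · intro h h'
      apply h
      apply two_inj m hm
      rw [h', hj0]
  rw [h1, Finset.card_erase_of_mem (Finset.mem_univ _), Finset.card_univ, ZMod.card]

lemma card_D (hm : Odd m) (i : ZMod m) : 2 * (D m i).card = m - 1 := by
  classical
  rw [← card_filter_ne m hm i]
  rw [Finset.card_eq_sum_card_image (fun j => P m j i)]
  have : ∀ p ∈ ((Finset.univ : Finset (ZMod m)).filter (fun j => j + j ≠ i)).image
      (fun j => P m j i), (((Finset.univ : Finset (ZMod m)).filter (fun j => j + j ≠ i)).filter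
        (fun j => P m j i = p)).card = 2 := by
    intro p hp
    rw [Finset.mem_image] at hp
    obtain ⟨j, hj, rfl⟩ := hp
    simp only [Finset.mem_filter, Finset.mem_univ, true_and] at hj
    rw [Finset.card_eq_two]
    refine ⟨j, i - j, ?_, ?_⟩
    · intro h
      apply hj
      nth_rw 2 [h]
      ring
    · ext l
      simp only [Finset.mem_filter, Finset.mem_univ, true_and, Finset.mem_insert,
        Finset.mem_singleton]
      constructor
      · rintro ⟨_, h⟩
        have h1 : (P m j i).orthogonal (a m l) := by
          rw [← h]; exact (P_ort_a m l i l).2 (Or.inl rfl)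
        rcases (P_ort_a m j i l).1 h1 with h | h
        · exact Or.inl h.symm
        · right; rw [← h]; ring
      · rintro (rfl | rfl)
        · exact ⟨hj, rfl⟩
        · refine ⟨?_, ?_⟩
          · intro h
            apply hj
            have : i = j + j := by
              have h2 : i - j + (i - j) + (j + j) = i + (j + j) := by rw [h]
              have h3 : i - j + (i - j) + (j + j) = i + i := by ring
              rw [h3] at h2
              exact add_left_cancel h2
            exact this.symm
          · symm
            apply eq_P m (P_ort_b m j i)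
            exact (P_ort_a m j i _).2 (Or.inr (by ring))
  rw [Finset.sum_congr rfl this]
  rw [Finset.sum_const, smul_eq_mul, mul_comm]
  rfl

open scoped Classical in
lemma sum_base (hm : Odd m) (S : Finset (ZMod m)) (hS : 2 ≤ S.card) (f : ℕ → ℕ) (f0 : f 0 = 0) :
    ∑ p ∈ V (T m ∪ B m S), f (mult (T m ∪ B m S) p - 2) =
      f (S.card - 2) + (S.card * ((m - 1) / 2)) * f 1 := by
  have hO : mult (T m ∪ B m S) O = S.card := by
    rw [mult_union, mult_T_O, mult_B_O, zero_add]
  have hDO : ∀ i, O ∉ D m i := by
    intro i h
    rw [mem_D, mult_T_O] at h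
    omega
  have hW : ∀ i ∈ S, ∀ p ∈ D m i, mult (T m ∪ B m S) p = 3 := by
    intro i hi p hp
    have hpO : p ≠ O := fun h => hDO i (h ▸ hp)
    rw [mem_D] at hp
    rw [mult_union, hp.2]
    have h1 := mult_B_le m S hpO
    have h2 : 0 < mult (B m S) p := by
      rw [mult_B, Finset.card_pos]
      exact ⟨i, by simp [hi, hp.1]⟩
    omega
  have hsub : insert O (S.biUnion (D m)) ⊆ V (T m ∪ B m S) := by
    intro p hp
    rw [Finset.mem_insert, Finset.mem_biUnion] at hp
    rw [mem_V_iff]
    rcases hp with rfl | ⟨i, hi, hp⟩
    · omega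
    · rw [hW i hi p hp]; norm_num
  rw [← Finset.sum_subset hsub]
  · rw [Finset.sum_insert, hO]
    · congr 1
      have h1 : ∀ p ∈ S.biUnion (D m), f (mult (T m ∪ B m S) p - 2) = f 1 := by
        intro p hp
        rw [Finset.mem_biUnion] at hp
        obtain ⟨i, hi, hp⟩ := hp
        rw [hW i hi p hp]
      rw [Finset.sum_congr rfl h1, Finset.sum_const, smul_eq_mul, Finset.card_biUnion]
      · congr 1
        have h2 : ∀ i ∈ S, (D m i).card = (m - 1) / 2 := by
          intro i _
          have := card_D m hm i
          omega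
        rw [Finset.sum_congr rfl h2, Finset.sum_const, smul_eq_mul]
      · intro i hi j hj hij
        rw [Function.onFun, Finset.disjoint_left]
        intro p hp hp'
        have hne' : b m i ≠ b m j := fun h => hij (b_inj m h)
        have hpO : p = O := by
          rw [mem_D] at hp hp'
          rw [eq_cross hne' hp.1 hp'.1, eq_cross hne' (O_ort_b m i) (O_ort_b m j)]
        exact hDO i (hpO ▸ hp)
    · rw [Finset.mem_biUnion]
      rintro ⟨i, _, h⟩
      exact hDO i h
  · intro p hp hp'
    rw [Finset.mem_insert, not_or, Finset.mem_biUnion] at hp'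
    have h1 := mult_T_le m p
    have h2 := mult_B_le m S hp'.1
    have h3 : ¬ (mult (T m) p = 2 ∧ mult (B m S) p = 1) := by
      rintro ⟨h4, h5⟩
      apply hp'.2
      rw [mult_B, Finset.card_eq_one] at h5
      obtain ⟨i, hi⟩ := h5
      have hi' : i ∈ S.filter (fun j => p.orthogonal (b m j)) := by rw [hi]; simp
      rw [Finset.mem_filter] at hi'
      exact ⟨i, hi'.1, by rw [mem_D]; exact ⟨hi'.2, h4⟩⟩
    rw [mult_union]
    have h4 : mult (T m) p + mult (B m S) p - 2 = 0 := by omega
    rw [h4, f0]

end Pool.Agent.H89.Arr.Poly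

namespace Pool.Agent.H89.Arr

/-- The base arrangement: `m` tangents and `k` central lines. -/
lemma Rz_base {m k : ℕ} (hm : Odd m) (hk : 2 ≤ k) (hkm : k ≤ m) :
    Rz (m + k) (k - 2 + k * ((m - 1) / 2)) ((k - 2).choose 2) := by
  classical
  have : NeZero m := ⟨by rintro rfl; simp at hm⟩
  obtain ⟨S, hS, hSk⟩ := Finset.exists_subset_card_eq
    (s := (Finset.univ : Finset (ZMod m))) (n := k) (by rw [Finset.card_univ, ZMod.card]; exact hkm)
  refine ⟨Poly.T m ∪ Poly.B m S, ?_, ?_, ?_⟩
  · rw [Finset.card_union_of_disjoint (Poly.disj m S)]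
    unfold Poly.T Poly.B
    rw [Finset.card_image_of_injective _ (Poly.a_inj m),
      Finset.card_image_of_injective _ (Poly.b_inj m), Finset.card_univ, ZMod.card, hSk]
  · have := Poly.sum_base m hm S (by omega) (fun x => x) rfl
    unfold gv
    rw [this, hSk, mul_one]
  · have := Poly.sum_base m hm S (by omega) (fun x => x.choose 2) rfl
    unfold ev
    rw [this, hSk]
    simp

end Pool.Agent.H89.Arr
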