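import Pool.Agent.H89.Arr.Defs

open scoped LinearAlgebra.Projectivization
open Projectivization

namespace Pool.Agent.H89.Arr

open Classical in
/-- number of lines of `A` through `p` -/
noncomputable def mult (A : Finset RP2) (p : RP2) : ℕ := (A.filter (fun l => p.orthogonal l)).card

open Classical in
/-- the finite set of vertices -/
noncomputable def V (A : Finset RP2) : Finset RP2 := A.offDiag.image (fun x => cross x.1 x.2)

lemma eq_cross {p l l' : RP2} (h : l ≠ l') (h1 : p.orthogonal l) (h2 : p.orthogonal l') :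
    p = cross l l' := by
  classical
  have h3 : (cross l l').orthogonal l := cross_orthogonal_left h
  have h4 : (cross l l').orthogonal l' := cross_orthogonal_right h
  rcases Configuration.ofField.eq_or_eq_of_orthogonal h1 h3 h2 h4 with h5 | h5
  · exact h5
  · exact absurd h5 h

lemma cross_ort_left {l l' : RP2} (h : l ≠ l') : (cross l l').orthogonal l := by
  classical
  exact cross_orthogonal_left h

lemma cross_ort_right {l l' : RP2} (h : l ≠ l') : (cross l l').orthogonal l' := by
  classical
  exact cross_orthogonal_right h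

lemma mem_V {A : Finset RP2} {p : RP2} :
    p ∈ V A ↔ ∃ l ∈ A, ∃ l' ∈ A, l ≠ l' ∧ p.orthogonal l ∧ p.orthogonal l' := by
  classical
  unfold V
  simp only [Finset.mem_image, Finset.mem_offDiag, Prod.exists]
  constructor
  · rintro ⟨l, l', ⟨hl, hl', hne⟩, rfl⟩
    exact ⟨l, hl, l', hl', hne, cross_ort_left hne, cross_ort_right hne⟩
  · rintro ⟨l, hl, l', hl', hne, h1, h2⟩
    exact ⟨l, l', ⟨hl, hl', hne⟩, (eq_cross hne h1 h2).symm⟩

lemma mem_V_iff {A : Finset RP2} {p : RP2} : p ∈ V A ↔ 2 ≤ mult A p := by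
  classical
  rw [mem_V]
  unfold mult
  constructor
  · rintro ⟨l, hl, l', hl', hne, h1, h2⟩
    have : 1 < (A.filter (fun l => p.orthogonal l)).card := by
      rw [Finset.one_lt_card]
      exact ⟨l, by simp [hl, h1], l', by simp [hl', h2], hne⟩
    omega
  · intro h
    have : 1 < (A.filter (fun l => p.orthogonal l)).card := by omega
    rw [Finset.one_lt_card] at this
    obtain ⟨a, ha, b, hb, hne⟩ := this
    simp only [Finset.mem_filter] at ha hb
    exact ⟨a, ha.1, b, hb.1, hne, ha.2, hb.2⟩

lemma numVertices_eq (A : Finset RP2) : numVertices A = (V A).card := by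
  unfold numVertices
  have : vertexSet A = (V A : Set RP2) := by
    ext p
    simp only [vertexSet, Set.mem_ofPred_eq, Finset.mem_coe, mem_V]
  rw [this, Set.ncard_coe_finset]

/-- excess sum `∑ (j - 2)` over the vertices -/
noncomputable def gv (A : Finset RP2) : ℕ := ∑ p ∈ V A, (mult A p - 2)

/-- `∑ C(j-2, 2)` over the vertices -/
noncomputable def ev (A : Finset RP2) : ℕ := ∑ p ∈ V A, (mult A p - 2).choose 2

lemma sum_offDiag (A : Finset RP2) :
    ∑ p ∈ V A, (mult A p * mult A p - mult A p) = A.card * A.card - A.card := by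
  classical
  rw [← Finset.offDiag_card A]
  rw [Finset.card_eq_sum_card_image (fun x : RP2 × RP2 => cross x.1 x.2)]
  apply Finset.sum_congr rfl
  intro p hp
  unfold mult
  rw [← Finset.offDiag_card]
  congr 1
  ext ⟨a, b⟩
  simp only [Finset.mem_offDiag, Finset.mem_filter]
  constructor
  · rintro ⟨⟨ha, ha'⟩, ⟨hb, hb'⟩, hne⟩
    exact ⟨⟨ha, hb, hne⟩, (eq_cross hne ha' hb').symm⟩
  · rintro ⟨⟨ha, hb, hne⟩, rfl⟩
    exact ⟨⟨ha, cross_ort_left hne⟩, ⟨hb, cross_ort_right hne⟩, hne⟩

lemma choose_two_double (n : ℕ) : 2 * n.choose 2 = n * n - n := by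
  induction n with
  | zero => simp
  | succ n ih =>
    rw [Nat.choose_succ_succ' n 1, Nat.choose_one_right, mul_add]
    have h2 : 2 * n.choose (1 + 1) = n * n - n := ih
    have h3 : n ≤ n * n := Nat.le_mul_self n
    have h4 : (n + 1) * (n + 1) = n * n + 2 * n + 1 := by ring
    omega

lemma choose_split (j : ℕ) (hj : 2 ≤ j) : j.choose 2 = 1 + 2 * (j - 2) + (j - 2).choose 2 := by
  obtain ⟨i, rfl⟩ : ∃ i, j = i + 2 := ⟨j - 2, by omega⟩
  simp only [Nat.add_sub_cancel]
  rw [Nat.choose_succ_succ' (i + 1) 1, Nat.choose_one_right, Nat.choose_succ_succ' i 1,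
    Nat.choose_one_right]
  ring

/-- The basic identity. -/
lemma choose_card (A : Finset RP2) :
    (V A).card + 2 * gv A + ev A = A.card.choose 2 := by
  have h1 := sum_offDiag A
  rw [← choose_two_double] at h1
  have h2 : ∑ p ∈ V A, (mult A p * mult A p - mult A p) = 2 * ∑ p ∈ V A, (mult A p).choose 2 := by
    rw [Finset.mul_sum]
    exact Finset.sum_congr rfl (fun p _ => (choose_two_double _).symm)
  rw [h2] at h1
  have h3 : ∑ p ∈ V A, (mult A p).choose 2 = (V A).card + 2 * gv A + ev A := by
    unfold gv ev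
    rw [Finset.mul_sum, Finset.card_eq_sum_ones, ← Finset.sum_add_distrib,
      ← Finset.sum_add_distrib]
    exact Finset.sum_congr rfl (fun p hp => choose_split _ (mem_V_iff.1 hp))
  omega

open scoped Classical in
/-- Adding a line. -/
lemma mult_insert {A : Finset RP2} {l : RP2} (hl : l ∉ A) (p : RP2) :
    mult (insert l A) p = mult A p + if p.orthogonal l then 1 else 0 := by
  unfold mult
  rw [Finset.filter_insert]
  by_cases h : p.orthogonal l
  · rw [if_pos h, if_pos h, Finset.card_insert_of_notMem]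
    simp [hl]
  · rw [if_neg h, if_neg h]; rfl

open scoped Classical in
lemma V_subset_insert (A : Finset RP2) (l : RP2) : V A ⊆ V (insert l A) := by
  intro p hp
  rw [mem_V] at hp ⊢
  obtain ⟨a, ha, b, hb, h⟩ := hp
  exact ⟨a, Finset.mem_insert_of_mem ha, b, Finset.mem_insert_of_mem hb, h⟩

lemma sum_over_bigger {A B : Finset RP2} (h : V A ⊆ V B) (f : ℕ → ℕ) (h0 : f 0 = 0)
    (h1 : f 1 = 0) : ∑ p ∈ V A, f (mult A p) = ∑ p ∈ V B, f (mult A p) := by
  apply Finset.sum_subset h
  intro p _ hp
  rw [mem_V_iff] at hp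
  have : mult A p = 0 ∨ mult A p = 1 := by omega
  rcases this with h | h <;> rw [h] <;> assumption

end Pool.Agent.H89.Arr
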