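import Pool.Agent.H89.Arr.Faces

open scoped LinearAlgebra.Projectivization
open Projectivization

namespace Pool.Agent.H89.Arr

open scoped Classical in
/-- The lines of `A` on the same side of `p` as `l0`. -/
noncomputable def side (A : Finset RP2) (l0 : RP2) (p : RP2) : Finset RP2 :=
  A.filter (fun l => 0 < (l.rep ⬝ᵥ p.rep) * (l0.rep ⬝ᵥ p.rep))

lemma side_mk (A : Finset RP2) (l0 l : RP2) {x : Fin 3 → ℝ} (hx : x ≠ 0) :
    l ∈ side A l0 (Projectivization.mk ℝ x hx) ↔ l ∈ A ∧ 0 < (l.rep ⬝ᵥ x) * (l0.rep ⬝ᵥ x) := by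
  classical
  unfold side
  rw [Finset.mem_filter]
  obtain ⟨c, hc⟩ := Projectivization.exists_smul_eq_mk_rep ℝ x hx
  have hc0 : (c : ℝ) ≠ 0 := Units.ne_zero c
  have h1 : (l.rep ⬝ᵥ (Projectivization.mk ℝ x hx).rep) *
      (l0.rep ⬝ᵥ (Projectivization.mk ℝ x hx).rep) =
      ((c : ℝ) * c) * ((l.rep ⬝ᵥ x) * (l0.rep ⬝ᵥ x)) := by
    rw [← hc]
    have : (c • x : Fin 3 → ℝ) = (c : ℝ) • x := rfl
    rw [this, dotProduct_smul, dotProduct_smul, smul_eq_mul, smul_eq_mul]
    ring
  rw [h1]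
  have h2 : 0 < (c : ℝ) * c := mul_self_pos.2 hc0
  rw [mul_pos_iff_of_pos_left h2]

lemma continuous_mk : Continuous
    (fun v : {v : Fin 3 → ℝ // v ≠ 0} => (Projectivization.mk ℝ v.1 v.2 : RP2)) :=
  continuous_coinduced_rng

lemma cont_dot (w : Fin 3 → ℝ) :
    Continuous (fun v : {v : Fin 3 → ℝ // v ≠ 0} => w ⬝ᵥ v.1) := by
  have h : ∀ i : Fin 3, Continuous (fun v : {v : Fin 3 → ℝ // v ≠ 0} => v.1 i) :=
    fun i => (continuous_apply i).comp continuous_subtype_val
  simp only [dotProduct, Fin.sum_univ_three]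
  exact ((continuous_const.mul (h 0)).add (continuous_const.mul (h 1))).add
    (continuous_const.mul (h 2))

lemma isOpen_side (A : Finset RP2) {l0 : RP2} (h0 : l0 ∈ A) (S : Finset RP2) :
    IsOpen {p : RP2 | p ∈ complement A ∧ side A l0 p = S} := by
  classical
  rw [isOpen_coinduced]
  by_cases hS : S ⊆ A
  swap
  · convert isOpen_empty
    ext ⟨v, hv⟩
    simp only [Set.mem_preimage, Set.mem_ofPred_eq, Set.mem_empty_iff_false, iff_false, not_and]
    intro _ h
    apply hS
    rw [← h]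
    exact Finset.filter_subset _ _
  have h1 : (fun v : {v : Fin 3 → ℝ // v ≠ 0} => (Projectivization.mk ℝ v.1 v.2 : RP2)) ⁻¹'
      {p : RP2 | p ∈ complement A ∧ side A l0 p = S} =
      ⋂ l ∈ A, {v : {v : Fin 3 → ℝ // v ≠ 0} |
        (l ∈ S → 0 < (l.rep ⬝ᵥ v.1) * (l0.rep ⬝ᵥ v.1)) ∧
        (l ∉ S → (l.rep ⬝ᵥ v.1) * (l0.rep ⬝ᵥ v.1) < 0)} := by
    ext ⟨v, hv⟩
    simp only [Set.mem_preimage, Set.mem_ofPred_eq, Set.mem_iInter]
    constructor
    · rintro ⟨hc, rfl⟩ l hl
      rw [side_mk]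
      refine ⟨fun h => h.2, fun h => ?_⟩
      have h2 : ¬ 0 < (l.rep ⬝ᵥ v) * (l0.rep ⬝ᵥ v) := fun h' => h ⟨hl, h'⟩
      have h3 : l.rep ⬝ᵥ v ≠ 0 := by
        intro h4
        exact hc l hl ((ort_iff hv l).2 h4)
      have h4 : l0.rep ⬝ᵥ v ≠ 0 := by
        intro h4
        exact hc l0 h0 ((ort_iff hv l0).2 h4)
      exact lt_of_le_of_ne (not_lt.1 h2) (mul_ne_zero h3 h4)
    · intro h
      refine ⟨?_, ?_⟩
      · intro l hl h2
        rw [ort_iff] at h2
        have h3 := h l hl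
        rw [h2, zero_mul] at h3
        by_cases h4 : l ∈ S
        · exact lt_irrefl _ (h3.1 h4)
        · exact lt_irrefl _ (h3.2 h4)
      · ext l
        rw [side_mk]
        constructor
        · rintro ⟨hl, h2⟩
          by_contra h4
          exact lt_asymm h2 ((h l hl).2 h4)
        · intro hl
          exact ⟨hS hl, (h l (hS hl)).1 hl⟩
  rw [h1]
  apply isOpen_biInter_finset
  intro l _
  have hc : Continuous (fun v : {v : Fin 3 → ℝ // v ≠ 0} =>
      (l.rep ⬝ᵥ v.1) * (l0.rep ⬝ᵥ v.1)) := (cont_dot _).mul (cont_dot _)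
  by_cases h4 : l ∈ S
  · have h5 := isOpen_lt (continuous_const (y := (0 : ℝ))) hc
    convert h5 using 1
    ext v
    simp [h4]
  · have h5 := isOpen_lt hc (continuous_const (y := (0 : ℝ)))
    convert h5 using 1
    ext v
    simp [h4]

lemma side_continuous (A : Finset RP2) {l0 : RP2} (h0 : l0 ∈ A) :
    IsLocallyConstant (fun p : complement A => side A l0 p.1) := by
  rw [IsLocallyConstant.iff_isOpen_fiber]
  intro S
  have h := (isOpen_side A h0 S).preimage (continuous_subtype_val (p := fun p => p ∈ complement A))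
  convert h using 1
  ext ⟨p, hp⟩
  simp

/-- For `p` off the lines choose the representative on the positive side of `l0`. -/
lemma exists_pos {A : Finset RP2} {l0 : RP2} (h0 : l0 ∈ A) {p : RP2} (hp : p ∈ complement A) :
    ∃ (x : Fin 3 → ℝ) (hx : x ≠ 0), p = Projectivization.mk ℝ x hx ∧ 0 < l0.rep ⬝ᵥ x := by
  have h1 : l0.rep ⬝ᵥ p.rep ≠ 0 := by
    intro h
    apply hp l0 h0
    rw [← Projectivization.mk_rep p, ort_iff]
    exact h
  rcases lt_or_gt_of_ne h1 with h | h
  · refine ⟨-p.rep, neg_ne_zero.2 p.rep_nonzero, ?_, ?_⟩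
    · conv_lhs => rw [← Projectivization.mk_rep p]
      rw [Projectivization.mk_eq_mk_iff']
      exact ⟨-1, by simp⟩
    · rw [dotProduct_neg]; linarith
  · exact ⟨p.rep, p.rep_nonzero, (Projectivization.mk_rep p).symm, h⟩

lemma side_of_pos {A : Finset RP2} {l0 : RP2} {x : Fin 3 → ℝ} (hx : x ≠ 0)
    (hpos : 0 < l0.rep ⬝ᵥ x) (l : RP2) :
    l ∈ side A l0 (Projectivization.mk ℝ x hx) ↔ l ∈ A ∧ 0 < l.rep ⬝ᵥ x := by
  rw [side_mk, mul_pos_iff_of_pos_right hpos]

lemma pat_of_side {A : Finset RP2} {l0 : RP2} {x : Fin 3 → ℝ} (hx : x ≠ 0)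
    (hc : Projectivization.mk ℝ x hx ∈ complement A) (hpos : 0 < l0.rep ⬝ᵥ x) :
    Pat A (side A l0 (Projectivization.mk ℝ x hx)) x := by
  intro l hl
  rw [side_of_pos hx hpos]
  refine ⟨fun h => h.2, fun h => ?_⟩
  have h1 : ¬ 0 < l.rep ⬝ᵥ x := fun h' => h ⟨hl, h'⟩
  exact lt_of_le_of_ne (not_lt.1 h1) (fun h2 => hc l hl ((ort_iff hx l).2 h2))

lemma pat_ne {A S : Finset RP2} {l0 : RP2} (h0 : l0 ∈ A) {x : Fin 3 → ℝ} (h : Pat A S x) :
    x ≠ 0 := by
  rintro rfl
  have h1 := h l0 h0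
  rw [dotProduct_zero] at h1
  by_cases h4 : l0 ∈ S
  · exact lt_irrefl _ (h1.1 h4)
  · exact lt_irrefl _ (h1.2 h4)

lemma pat_compl {A S : Finset RP2} {x : Fin 3 → ℝ} (hx : x ≠ 0) (h : Pat A S x) :
    Projectivization.mk ℝ x hx ∈ complement A := by
  intro l hl h2
  rw [ort_iff] at h2
  have h1 := h l hl
  rw [h2] at h1
  by_cases h4 : l ∈ S
  · exact lt_irrefl _ (h1.1 h4)
  · exact lt_irrefl _ (h1.2 h4)

lemma pat_convex (A S : Finset RP2) : Convex ℝ {x : Fin 3 → ℝ | Pat A S x} := by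
  intro x hx y hy a b ha hb hab
  simp only [Set.mem_ofPred_eq] at hx hy ⊢
  intro l hl
  rw [dotProduct_add, dotProduct_smul, dotProduct_smul, smul_eq_mul, smul_eq_mul]
  have h1 := hx l hl
  have h2 := hy l hl
  constructor
  · intro hS
    have h3 := h1.1 hS
    have h4 := h2.1 hS
    rcases ha.eq_or_lt with h | h
    · have hb1 : b = 1 := by linarith
      rw [← h, hb1]; linarith
    · have h5 := mul_pos h h3
      have h6 := mul_nonneg hb h4.le
      linarith
  · intro hS
    have h3 := h1.2 hS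
    have h4 := h2.2 hS
    rcases ha.eq_or_lt with h | h
    · have hb1 : b = 1 := by linarith
      rw [← h, hb1]; linarith
    · have h5 := mul_neg_of_pos_of_neg h h3
      have h6 := mul_nonpos_of_nonneg_of_nonpos hb h4.le
      linarith

lemma same_comp {A : Finset RP2} {l0 : RP2} (h0 : l0 ∈ A) (p q : complement A)
    (h : side A l0 p.1 = side A l0 q.1) : connectedComponent p = connectedComponent q := by
  obtain ⟨p, hp⟩ := p
  obtain ⟨q, hq⟩ := q
  simp only at h
  obtain ⟨x, hx, rfl, hxpos⟩ := exists_pos h0 hp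
  obtain ⟨y, hy, rfl, hypos⟩ := exists_pos h0 hq
  set S := side A l0 (Projectivization.mk ℝ x hx) with hS
  have hPx : Pat A S x := pat_of_side hx hp hxpos
  have hPy : Pat A S y := by rw [h]; exact pat_of_side hy hq hypos
  -- the convex cone
  set C : Set (Fin 3 → ℝ) := {x | Pat A S x} with hC
  have hconv : Convex ℝ C := pat_convex A S
  let g : C → complement A := fun z =>
    ⟨Projectivization.mk ℝ z.1 (pat_ne h0 z.2), pat_compl (pat_ne h0 z.2) z.2⟩
  have hg : Continuous g := by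
    apply Continuous.subtype_mk
    have h1 : Continuous (fun z : C => (⟨z.1, pat_ne h0 z.2⟩ : {v : Fin 3 → ℝ // v ≠ 0})) :=
      Continuous.subtype_mk continuous_subtype_val _
    exact continuous_mk.comp h1
  have hpre : PreconnectedSpace C :=
    isPreconnected_iff_preconnectedSpace.1 hconv.isPreconnected
  have h2 : IsPreconnected (Set.range g) := isPreconnected_range hg
  have hpm : (⟨Projectivization.mk ℝ x hx, hp⟩ : complement A) ∈ Set.range g := ⟨⟨x, hPx⟩, rfl⟩
  have hqm : (⟨Projectivization.mk ℝ y hy, hq⟩ : complement A) ∈ Set.range g := ⟨⟨y, hPy⟩, rfl⟩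
  exact connectedComponent_eq (h2.subset_connectedComponent hpm hqm)

open scoped Classical in
lemma numFaces_eq_filter {A : Finset RP2} {l0 : RP2} (h0 : l0 ∈ A) :
    numFaces A = ((Rg ⊤ A).filter (fun S => l0 ∈ S)).card := by
  unfold numFaces
  let _ : TopologicalSpace (Finset RP2) := ⊥
  have : DiscreteTopology (Finset RP2) := ⟨rfl⟩
  have hcont : Continuous (fun p : complement A => side A l0 p.1) :=
    (side_continuous A h0).continuous
  let F := hcont.connectedComponentsLift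
  have hF : ∀ p : complement A, F (ConnectedComponents.mk p) = side A l0 p.1 :=
    fun p => hcont.connectedComponentsLift_apply_coe p
  have hinj : Function.Injective F := by
    intro c d hcd
    obtain ⟨p, rfl⟩ := ConnectedComponents.surjective_coe c
    obtain ⟨q, rfl⟩ := ConnectedComponents.surjective_coe d
    rw [hF, hF] at hcd
    exact ConnectedComponents.coe_eq_coe.2 (same_comp h0 p q hcd)
  have hrange : Set.range F = (((Rg ⊤ A).filter (fun S => l0 ∈ S) : Finset (Finset RP2)) :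
      Set (Finset RP2)) := by
    ext S
    rw [Set.mem_range, Finset.mem_coe, Finset.mem_filter, mem_Rg]
    constructor
    · rintro ⟨c, rfl⟩
      obtain ⟨⟨p, hp⟩, rfl⟩ := ConnectedComponents.surjective_coe c
      rw [hF]
      obtain ⟨x, hx, rfl, hxpos⟩ := exists_pos h0 hp
      refine ⟨⟨Finset.filter_subset _ _, x, trivial, pat_of_side hx hp hxpos⟩, ?_⟩
      rw [side_of_pos hx hxpos]
      exact ⟨h0, hxpos⟩
    · rintro ⟨⟨hS, x, -, hP⟩, hl0⟩
      have hx := pat_ne h0 hP
      refine ⟨ConnectedComponents.mk ⟨Projectivization.mk ℝ x hx, pat_compl hx hP⟩, ?_⟩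
      rw [hF]
      ext l
      rw [side_of_pos hx ((hP l0 h0).1 hl0)]
      constructor
      · rintro ⟨hl, h1⟩
        by_contra h2
        exact lt_asymm h1 ((hP l hl).2 h2)
      · intro hl
        exact ⟨hS hl, (hP l (hS hl)).1 hl⟩
  rw [← Nat.card_range_of_injective hinj, hrange, Nat.card_coe_set_eq, Set.ncard_coe_finset]

lemma numFaces_eq_Phi {A : Finset RP2} (hA : A.Nonempty) : numFaces A = 1 + Phi A := by
  classical
  obtain ⟨l0, h0⟩ := hA
  rw [numFaces_eq_filter h0]
  have h1 := card_Rg_top A ⟨l0, h0⟩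
  have h2 : ((Rg ⊤ A).filter (fun S => l0 ∈ S)).card =
      ((Rg ⊤ A).filter (fun S => ¬ l0 ∈ S)).card := by
    apply Finset.card_bij' (fun S _ => A \ S) (fun S _ => A \ S)
    · intro S hS
      rw [Finset.mem_filter, mem_Rg] at hS ⊢
      obtain ⟨⟨hS1, x, -, hP⟩, hl⟩ := hS
      refine ⟨⟨Finset.sdiff_subset, -x, trivial, ?_⟩, ?_⟩
      · intro l hl
        rw [Finset.mem_sdiff, dotProduct_neg]
        have h3 := hP l hl
        refine ⟨fun h => ?_, fun h => ?_⟩
        · have := h3.2 h.2; linarith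
        · have h4 : l ∈ S := by
            by_contra h5
            exact h ⟨hl, h5⟩
          have := h3.1 h4; linarith
      · rw [Finset.mem_sdiff]
        exact fun h => h.2 hl
    · intro S hS
      rw [Finset.mem_filter, mem_Rg] at hS ⊢
      obtain ⟨⟨hS1, x, -, hP⟩, hl⟩ := hS
      refine ⟨⟨Finset.sdiff_subset, -x, trivial, ?_⟩, ?_⟩
      · intro l hl
        rw [Finset.mem_sdiff, dotProduct_neg]
        have h3 := hP l hl
        refine ⟨fun h => ?_, fun h => ?_⟩
        · have := h3.2 h.2; linarith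
        · have h4 : l ∈ S := by
            by_contra h5
            exact h ⟨hl, h5⟩
          have := h3.1 h4; linarith
      · rw [Finset.mem_sdiff]
        exact ⟨h0, hl⟩
    · intro S hS
      rw [Finset.mem_filter, mem_Rg] at hS
      rw [Finset.sdiff_sdiff_eq_self hS.1.1]
    · intro S hS
      rw [Finset.mem_filter, mem_Rg] at hS
      rw [Finset.sdiff_sdiff_eq_self hS.1.1]
  have h3 := Finset.card_filter_add_card_filter_not (s := Rg ⊤ A) (fun S => l0 ∈ S)
  omega

lemma numFaces_eq {A : Finset RP2} (hA : A.Nonempty) : numFaces A = 1 + gv A + (V A).card := by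
  rw [numFaces_eq_Phi hA]
  unfold Phi gv
  have h : ∑ p ∈ V A, (mult A p - 1) = ∑ p ∈ V A, ((mult A p - 2) + 1) := by
    apply Finset.sum_congr rfl
    intro p hp
    have := mem_V_iff.1 hp
    omega
  rw [h, Finset.sum_add_distrib, Finset.card_eq_sum_ones]
  ring

end Pool.Agent.H89.Arr
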