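import Mathlib

/-!
Line arrangements in the real projective plane: definitions.
-/

open scoped LinearAlgebra.Projectivization
open Projectivization

namespace Pool.Agent.H89.Arr

/-- The real projective plane. A point `l` of it also stands for the line
`{p | p.orthogonal l}` (the line with normal vector `l`); distinct `l` give distinct lines, and
every line arises. -/
abbrev RP2 : Type := ℙ ℝ (Fin 3 → ℝ)

/-- The usual topology of the real projective plane: the quotient topology of the topology of
the nonzero vectors of `ℝ³`. -/
noncomputable instance : TopologicalSpace RP2 :=
  TopologicalSpace.coinduced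
    (fun v : {v : Fin 3 → ℝ // v ≠ 0} => Projectivization.mk ℝ v.1 v.2) inferInstance

/-- A finite set `A` of lines of the real projective plane is a 2-arrangement when it has at
least three lines and no point lies on all of them. -/
def IsArrangement (A : Finset RP2) : Prop :=
  3 ≤ A.card ∧ ¬ ∃ p : RP2, ∀ l ∈ A, p.orthogonal l

/-- The vertices: the points lying on at least two lines of `A`. -/
def vertexSet (A : Finset RP2) : Set RP2 :=
  {p | ∃ l ∈ A, ∃ l' ∈ A, l ≠ l' ∧ p.orthogonal l ∧ p.orthogonal l'}

/-- The number of vertices. -/
noncomputable def numVertices (A : Finset RP2) : ℕ := (vertexSet A).ncard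

/-- The complement of the union of the lines of `A`. -/
def complement (A : Finset RP2) : Set RP2 := {p | ∀ l ∈ A, ¬ p.orthogonal l}

/-- The number of 2-faces: the number of connected components of the complement of the union of
the lines. -/
noncomputable def numFaces (A : Finset RP2) : ℕ := Nat.card (ConnectedComponents (complement A))

/-- The pair `(a, b)` is realised as `(f₀, f₂)` by a 2-arrangement. -/
def Realised (a b : ℕ) : Prop :=
  ∃ A : Finset RP2, IsArrangement A ∧ numVertices A = a ∧ numFaces A = b

end Pool.Agent.H89.Arr
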