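import Pool.Agent.H89.Arr.Add

open scoped LinearAlgebra.Projectivization
open Projectivization

namespace Pool.Agent.H89.Arr

lemma ort_iff {x : Fin 3 → ℝ} (hx : x ≠ 0) (l : RP2) :
    (Projectivization.mk ℝ x hx).orthogonal l ↔ l.rep ⬝ᵥ x = 0 := by
  conv_lhs => rw [← Projectivization.mk_rep l]
  rw [orthogonal_mk, dotProduct_comm]

/-- `S` is the set of positive lines at `x` -/
def Pat (A S : Finset RP2) (x : Fin 3 → ℝ) : Prop :=
  ∀ l ∈ A, (l ∈ S → 0 < l.rep ⬝ᵥ x) ∧ (l ∉ S → l.rep ⬝ᵥ x < 0)

open scoped Classical in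
/-- sign patterns realised on the subspace `W` -/
noncomputable def Rg (W : Submodule ℝ (Fin 3 → ℝ)) (A : Finset RP2) : Finset (Finset RP2) :=
  A.powerset.filter (fun S => ∃ x ∈ W, Pat A S x)

lemma mem_Rg {W : Submodule ℝ (Fin 3 → ℝ)} {A S : Finset RP2} :
    S ∈ Rg W A ↔ S ⊆ A ∧ ∃ x ∈ W, Pat A S x := by
  classical
  unfold Rg
  rw [Finset.mem_filter, Finset.mem_powerset]

/-- The kernel of a line functional. -/
def K (l : RP2) : Submodule ℝ (Fin 3 → ℝ) where
  carrier := {x | l.rep ⬝ᵥ x = 0}
  add_mem' := by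
    intro a b ha hb
    simp only [Set.mem_ofPred_eq] at ha hb ⊢
    rw [dotProduct_add, ha, hb, add_zero]
  zero_mem' := by simp
  smul_mem' := by
    intro c x hx
    simp only [Set.mem_ofPred_eq] at hx ⊢
    rw [dotProduct_smul, hx, smul_zero]

lemma mem_K {l : RP2} {x : Fin 3 → ℝ} : x ∈ K l ↔ l.rep ⬝ᵥ x = 0 := Iff.rfl

lemma perturb {A S : Finset RP2} {x : Fin 3 → ℝ} (h : Pat A S x) (y : Fin 3 → ℝ) :
    ∃ ε : ℝ, 0 < ε ∧ Pat A S (x + ε • y) := by
  have h1 : ∀ l ∈ A, ∀ᶠ ε in nhds (0 : ℝ),
      ((l ∈ S → 0 < l.rep ⬝ᵥ (x + ε • y)) ∧ (l ∉ S → l.rep ⬝ᵥ (x + ε • y) < 0)) := by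
    intro l hl
    have hc : Filter.Tendsto (fun ε : ℝ => l.rep ⬝ᵥ (x + ε • y)) (nhds 0)
        (nhds (l.rep ⬝ᵥ x)) := by
      have : Continuous (fun ε : ℝ => l.rep ⬝ᵥ (x + ε • y)) := by
        simp only [dotProduct_add, dotProduct_smul]
        fun_prop
      have h2 := this.tendsto 0
      simpa using h2
    by_cases hS : l ∈ S
    · have h2 := (h l hl).1 hS
      filter_upwards [hc.eventually (lt_mem_nhds h2)] with ε hε
      exact ⟨fun _ => hε, fun h => absurd hS h⟩
    · have h2 := (h l hl).2 hS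
      filter_upwards [hc.eventually (gt_mem_nhds h2)] with ε hε
      exact ⟨fun h => absurd h hS, fun _ => hε⟩
  have h2 : ∀ᶠ ε in nhds (0 : ℝ), Pat A S (x + ε • y) := by
    unfold Pat
    rw [Filter.eventually_all_finset]
    exact h1
  have h3 : ∀ᶠ ε in nhdsWithin (0 : ℝ) (Set.Ioi 0), Pat A S (x + ε • y) :=
    h2.filter_mono nhdsWithin_le_nhds
  have h4 : ∀ᶠ ε in nhdsWithin (0 : ℝ) (Set.Ioi 0), 0 < ε := self_mem_nhdsWithin
  obtain ⟨ε, h5, h6⟩ := (h4.and h3).exists
  exact ⟨ε, h5, h6⟩

open scoped Classical in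
lemma split_aux (W : Submodule ℝ (Fin 3 → ℝ)) (A : Finset RP2) (j : RP2) (hj : j ∉ A)
    (hy : ∃ y ∈ W, j.rep ⬝ᵥ y ≠ 0) :
    (Rg W (insert j A)).card = (Rg W A).card + (Rg (W ⊓ K j) A).card := by
  obtain ⟨y, hyW, hy⟩ := hy
  set Xp := A.powerset.filter (fun S => ∃ x ∈ W, Pat A S x ∧ 0 < j.rep ⬝ᵥ x) with hXp
  set Xm := A.powerset.filter (fun S => ∃ x ∈ W, Pat A S x ∧ j.rep ⬝ᵥ x < 0) with hXm
  have hneg : ∀ S x, x ∈ W → Pat A S x → j.rep ⬝ᵥ x = 0 →
      (∃ x' ∈ W, Pat A S x' ∧ 0 < j.rep ⬝ᵥ x') ∧ (∃ x' ∈ W, Pat A S x' ∧ j.rep ⬝ᵥ x' < 0) := by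
    intro S x hx hP h0
    have hsq : 0 < (j.rep ⬝ᵥ y) * (j.rep ⬝ᵥ y) := mul_self_pos.2 hy
    constructor
    · obtain ⟨ε, hε, hP'⟩ := perturb hP ((j.rep ⬝ᵥ y) • y)
      refine ⟨_, ?_, hP', ?_⟩
      · exact W.add_mem hx (W.smul_mem _ (W.smul_mem _ hyW))
      · rw [dotProduct_add, dotProduct_smul, dotProduct_smul, h0, zero_add]
        exact mul_pos hε hsq
    · obtain ⟨ε, hε, hP'⟩ := perturb hP (-((j.rep ⬝ᵥ y) • y))
      refine ⟨_, ?_, hP', ?_⟩
      · exact W.add_mem hx (W.smul_mem _ (W.neg_mem (W.smul_mem _ hyW)))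
      · rw [dotProduct_add, dotProduct_smul, dotProduct_neg, dotProduct_smul, h0, zero_add]
        have := mul_pos hε hsq
        simp only [smul_eq_mul]
        linarith
  have h1 : (Rg W (insert j A)).card = Xp.card + Xm.card := by
    have h2 : Rg W (insert j A) = Xp.image (fun S => insert j S) ∪ Xm := by
      ext S
      rw [mem_Rg, Finset.mem_union, Finset.mem_image]
      constructor
      · rintro ⟨hS, x, hx, hP⟩
        by_cases hjS : j ∈ S
        · left
          refine ⟨S.erase j, ?_, Finset.insert_erase hjS⟩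
          rw [hXp, Finset.mem_filter, Finset.mem_powerset]
          refine ⟨?_, x, hx, ?_, (hP j (Finset.mem_insert_self _ _)).1 hjS⟩
          · intro l hl
            rw [Finset.mem_erase] at hl
            rcases Finset.mem_insert.1 (hS hl.2) with h | h
            · exact absurd h hl.1
            · exact h
          · intro l hl
            have h3 := hP l (Finset.mem_insert_of_mem hl)
            have hlj : l ≠ j := fun h => hj (h ▸ hl)
            rw [Finset.mem_erase]
            exact ⟨fun h => h3.1 h.2, fun h => h3.2 (fun h' => h ⟨hlj, h'⟩)⟩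
        · right
          rw [hXm, Finset.mem_filter, Finset.mem_powerset]
          refine ⟨?_, x, hx, ?_, (hP j (Finset.mem_insert_self _ _)).2 hjS⟩
          · intro l hl
            rcases Finset.mem_insert.1 (hS hl) with h | h
            · exact absurd (h ▸ hl) hjS
            · exact h
          · intro l hl
            exact hP l (Finset.mem_insert_of_mem hl)
      · rintro (⟨S', hS', rfl⟩ | hS)
        · rw [hXp, Finset.mem_filter, Finset.mem_powerset] at hS'
          obtain ⟨h3, x, hx, hP, hjx⟩ := hS'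
          refine ⟨Finset.insert_subset_insert _ h3, x, hx, ?_⟩
          intro l hl
          rcases Finset.mem_insert.1 hl with rfl | h
          · exact ⟨fun _ => hjx, fun h => absurd (Finset.mem_insert_self _ _) h⟩
          · have hlj : l ≠ j := fun h' => hj (h' ▸ h)
            have h4 := hP l h
            refine ⟨fun h5 => h4.1 ?_, fun h5 => h4.2 ?_⟩
            · rcases Finset.mem_insert.1 h5 with h6 | h6
              · exact absurd h6 hlj
              · exact h6
            · intro h6
              exact h5 (Finset.mem_insert_of_mem h6)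
        · rw [hXm, Finset.mem_filter, Finset.mem_powerset] at hS
          obtain ⟨h3, x, hx, hP, hjx⟩ := hS
          refine ⟨h3.trans (Finset.subset_insert _ _), x, hx, ?_⟩
          intro l hl
          rcases Finset.mem_insert.1 hl with rfl | h
          · exact ⟨fun h => absurd (h3 h) hj, fun _ => hjx⟩
          · exact hP l h
    rw [h2, Finset.card_union_of_disjoint]
    · rw [Finset.card_image_of_injOn]
      intro S hS S' hS' h
      simp only at h
      have hjS : j ∉ S := by
        rw [Finset.mem_coe, hXp, Finset.mem_filter, Finset.mem_powerset] at hS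
        exact fun h => hj (hS.1 h)
      have hjS' : j ∉ S' := by
        rw [Finset.mem_coe, hXp, Finset.mem_filter, Finset.mem_powerset] at hS'
        exact fun h => hj (hS'.1 h)
      rw [← Finset.erase_insert hjS, ← Finset.erase_insert hjS', h]
    · rw [Finset.disjoint_left]
      intro S hS hS'
      rw [Finset.mem_image] at hS
      obtain ⟨S'', -, rfl⟩ := hS
      rw [hXm, Finset.mem_filter, Finset.mem_powerset] at hS'
      exact hj (hS'.1 (Finset.mem_insert_self _ _))
  have h2 : Rg W A = Xp ∪ Xm := by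
    ext S
    rw [mem_Rg, Finset.mem_union, hXp, hXm, Finset.mem_filter, Finset.mem_filter,
      Finset.mem_powerset]
    constructor
    · rintro ⟨hS, x, hx, hP⟩
      rcases lt_trichotomy (j.rep ⬝ᵥ x) 0 with h | h | h
      · exact Or.inr ⟨hS, x, hx, hP, h⟩
      · exact Or.inl ⟨hS, (hneg S x hx hP h).1⟩
      · exact Or.inl ⟨hS, x, hx, hP, h⟩
    · rintro (⟨hS, x, hx, hP, _⟩ | ⟨hS, x, hx, hP, _⟩)
      · exact ⟨hS, x, hx, hP⟩
      · exact ⟨hS, x, hx, hP⟩
  have h3 : Rg (W ⊓ K j) A = Xp ∩ Xm := by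
    ext S
    rw [mem_Rg, Finset.mem_inter, hXp, hXm, Finset.mem_filter, Finset.mem_filter,
      Finset.mem_powerset]
    constructor
    · rintro ⟨hS, x, hx, hP⟩
      rw [Submodule.mem_inf] at hx
      have := hneg S x hx.1 hP (mem_K.1 hx.2)
      exact ⟨⟨hS, this.1⟩, ⟨hS, this.2⟩⟩
    · rintro ⟨⟨hS, x, hx, hP, h4⟩, ⟨-, x', hx', hP', h5⟩⟩
      refine ⟨hS, (-(j.rep ⬝ᵥ x')) • x + (j.rep ⬝ᵥ x) • x', ?_, ?_⟩
      · rw [Submodule.mem_inf]
        refine ⟨W.add_mem (W.smul_mem _ hx) (W.smul_mem _ hx'), ?_⟩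
        rw [mem_K, dotProduct_add, dotProduct_smul, dotProduct_smul]
        simp only [smul_eq_mul]
        ring
      · intro l hl
        rw [dotProduct_add, dotProduct_smul, dotProduct_smul]
        simp only [smul_eq_mul]
        have h6 := hP l hl
        have h7 := hP' l hl
        constructor
        · intro hS'
          have h8 := h6.1 hS'
          have h9 := h7.1 hS'
          have := mul_pos (neg_pos.2 h5) h8
          have := mul_pos h4 h9
          linarith
        · intro hS'
          have h8 := h6.2 hS'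
          have h9 := h7.2 hS'
          have := mul_neg_of_pos_of_neg (neg_pos.2 h5) h8
          have := mul_neg_of_pos_of_neg h4 h9
          linarith
  rw [h1, h2, h3, Finset.card_union_add_card_inter]

/-- patterns on a line through the origin -/
lemma Rg_span_zero {A : Finset RP2} {q : Fin 3 → ℝ} {a : RP2} (ha : a ∈ A)
    (h0 : a.rep ⬝ᵥ q = 0) : (Rg (Submodule.span ℝ {q}) A).card = 0 := by
  rw [Finset.card_eq_zero, Finset.eq_empty_iff_forall_notMem]
  intro S hS
  rw [mem_Rg] at hS
  obtain ⟨hS, x, hx, hP⟩ := hS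
  rw [Submodule.mem_span_singleton] at hx
  obtain ⟨c, rfl⟩ := hx
  have h1 := hP a ha
  rw [dotProduct_smul, h0, smul_zero] at h1
  by_cases h : a ∈ S
  · exact lt_irrefl _ (h1.1 h)
  · exact lt_irrefl _ (h1.2 h)

lemma Rg_empty (W : Submodule ℝ (Fin 3 → ℝ)) : (Rg W ∅).card = 1 := by
  classical
  have : Rg W ∅ = {∅} := by
    ext S
    rw [mem_Rg, Finset.mem_singleton]
    constructor
    · rintro ⟨h, _⟩
      exact Finset.subset_empty.1 h
    · rintro rfl
      exact ⟨subset_rfl, 0, W.zero_mem, fun l hl => absurd hl (Finset.notMem_empty l)⟩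
  rw [this, Finset.card_singleton]

lemma Rg_span_two {A : Finset RP2} {q : Fin 3 → ℝ} (hA : A.Nonempty)
    (h0 : ∀ a ∈ A, a.rep ⬝ᵥ q ≠ 0) : (Rg (Submodule.span ℝ {q}) A).card = 2 := by
  classical
  rw [Finset.card_eq_two]
  set S := A.filter (fun a => 0 < a.rep ⬝ᵥ q) with hS
  set S' := A.filter (fun a => a.rep ⬝ᵥ q < 0) with hS'
  refine ⟨S, S', ?_, ?_⟩
  · intro h
    obtain ⟨a, ha⟩ := hA
    rcases lt_or_gt_of_ne (h0 a ha) with h1 | h1
    · have h2 : a ∈ S' := by rw [hS', Finset.mem_filter]; exact ⟨ha, h1⟩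
      rw [← h, hS, Finset.mem_filter] at h2
      exact lt_asymm h1 h2.2
    · have h2 : a ∈ S := by rw [hS, Finset.mem_filter]; exact ⟨ha, h1⟩
      rw [h, hS', Finset.mem_filter] at h2
      exact lt_asymm h1 h2.2
  · ext X
    rw [mem_Rg, Finset.mem_insert, Finset.mem_singleton]
    constructor
    · rintro ⟨hX, x, hx, hP⟩
      rw [Submodule.mem_span_singleton] at hx
      obtain ⟨c, rfl⟩ := hx
      have hc : c ≠ 0 := by
        rintro rfl
        obtain ⟨a, ha⟩ := hA
        have h1 := hP a ha
        rw [zero_smul, dotProduct_zero] at h1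
        by_cases h : a ∈ X
        · exact lt_irrefl _ (h1.1 h)
        · exact lt_irrefl _ (h1.2 h)
      rcases lt_or_gt_of_ne hc with h1 | h1
      · right
        ext a
        rw [hS', Finset.mem_filter]
        constructor
        · intro ha
          have h2 := (hP a (hX ha)).1 ha
          rw [dotProduct_smul, smul_eq_mul] at h2
          refine ⟨hX ha, ?_⟩
          by_contra h3
          exact absurd h2 (not_lt.2 (mul_nonpos_of_nonpos_of_nonneg h1.le (not_lt.1 h3)))
        · rintro ⟨ha, h3⟩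
          by_contra h4
          have h2 := (hP a ha).2 h4
          rw [dotProduct_smul, smul_eq_mul] at h2
          exact absurd (mul_pos_of_neg_of_neg h1 h3) (not_lt.2 h2.le)
      · left
        ext a
        rw [hS, Finset.mem_filter]
        constructor
        · intro ha
          have h2 := (hP a (hX ha)).1 ha
          rw [dotProduct_smul, smul_eq_mul] at h2
          refine ⟨hX ha, ?_⟩
          by_contra h3
          exact absurd h2 (not_lt.2 (mul_nonpos_of_nonneg_of_nonpos (le_of_lt h1) (not_lt.1 h3)))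
        · rintro ⟨ha, h3⟩
          by_contra h4
          have h2 := (hP a ha).2 h4
          rw [dotProduct_smul, smul_eq_mul] at h2
          exact absurd (mul_pos h1 h3) (not_lt.2 h2.le)
    · rintro (rfl | rfl)
      · refine ⟨Finset.filter_subset _ _, q, Submodule.mem_span_singleton_self q, ?_⟩
        intro a ha
        rw [hS, Finset.mem_filter]
        refine ⟨fun h => h.2, fun h => ?_⟩
        rcases lt_or_gt_of_ne (h0 a ha) with h1 | h1
        · exact h1
        · exact absurd ⟨ha, h1⟩ h
      · refine ⟨Finset.filter_subset _ _, (-1 : ℝ) • q,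
          Submodule.smul_mem _ _ (Submodule.mem_span_singleton_self q), ?_⟩
        intro a ha
        rw [hS', Finset.mem_filter, dotProduct_smul, smul_eq_mul]
        refine ⟨fun h => by linarith [h.2], fun h => ?_⟩
        rcases lt_or_gt_of_ne (h0 a ha) with h1 | h1
        · exact absurd ⟨ha, h1⟩ h
        · linarith

lemma K_inf {a l : RP2} (h : a ≠ l) : K l ⊓ K a = Submodule.span ℝ {(cross a l).rep} := by
  ext x
  rw [Submodule.mem_inf, mem_K, mem_K, Submodule.mem_span_singleton]
  constructor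
  · rintro ⟨h1, h2⟩
    by_cases hx : x = 0
    · exact ⟨0, by rw [hx, zero_smul]⟩
    · have h3 := (ort_iff hx l).2 h1
      have h4 := (ort_iff hx a).2 h2
      have h5 := eq_cross h h4 h3
      have h6 := Projectivization.mk_rep (cross a l)
      rw [← h5] at h6
      rw [Projectivization.mk_eq_mk_iff'] at h6
      obtain ⟨c, hc⟩ := h6
      have hc0 : c ≠ 0 := by
        rintro rfl
        rw [zero_smul] at hc
        exact Projectivization.rep_nonzero _ hc.symm
      refine ⟨c⁻¹, ?_⟩
      rw [← h5, ← hc, smul_smul, inv_mul_cancel₀ hc0, one_smul]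
  · rintro ⟨c, rfl⟩
    have h1 : (cross a l).orthogonal a := cross_ort_left h
    have h2 : (cross a l).orthogonal l := cross_ort_right h
    rw [← Projectivization.mk_rep (cross a l), ort_iff] at h1 h2
    rw [dotProduct_smul, dotProduct_smul, h1, h2, smul_zero]
    exact ⟨rfl, rfl⟩

lemma exists_on_off {a l : RP2} (h : a ≠ l) : ∃ y ∈ K l, a.rep ⬝ᵥ y ≠ 0 := by
  obtain ⟨p, hp, hp'⟩ := ((infinite_lines l).sdiff (Set.finite_singleton (cross a l))).nonempty
  refine ⟨p.rep, ?_, ?_⟩
  · rw [mem_K, ← ort_iff (Projectivization.rep_nonzero p), Projectivization.mk_rep]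
    exact orthogonal_comm.1 hp
  · intro h2
    apply hp'
    rw [Set.mem_singleton_iff]
    rw [← ort_iff (Projectivization.rep_nonzero p), Projectivization.mk_rep] at h2
    exact eq_cross h h2 (orthogonal_comm.1 hp)

open scoped Classical in
lemma card_Rg_K (l : RP2) (A : Finset RP2) (hl : l ∉ A) :
    (Rg (K l) A).card = if A = ∅ then 1 else 2 * (A.image (fun a => cross a l)).card := by
  induction A using Finset.induction_on with
  | empty => rw [if_pos rfl, Rg_empty]
  | insert a A ha ih =>
    have hla : a ≠ l := fun h => hl (h ▸ Finset.mem_insert_self _ _)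
    have hlA : l ∉ A := fun h => hl (Finset.mem_insert_of_mem h)
    rw [split_aux (K l) A a ha (exists_on_off hla), K_inf hla, ih hlA,
      if_neg (Finset.insert_ne_empty a A), Finset.image_insert]
    by_cases hA : A = ∅
    · subst hA
      rw [if_pos rfl, Rg_empty]
      simp
    · rw [if_neg hA]
      have hort : ∀ b ∈ A, b.rep ⬝ᵥ (cross a l).rep = 0 ↔ (cross a l).orthogonal b := by
        intro b hb
        rw [← ort_iff (Projectivization.rep_nonzero _), Projectivization.mk_rep]
      by_cases hin : cross a l ∈ A.image (fun a => cross a l)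
      · rw [Finset.insert_eq_of_mem hin]
        rw [Finset.mem_image] at hin
        obtain ⟨b, hb, hb'⟩ := hin
        have hbl : b ≠ l := fun h => hlA (h ▸ hb)
        rw [Rg_span_zero hb, add_zero]
        rw [hort b hb, ← hb']
        exact cross_ort_left hbl
      · rw [Finset.card_insert_of_notMem hin, Rg_span_two (Finset.nonempty_iff_ne_empty.2 hA)]
        · ring
        · intro b hb h
          rw [hort b hb] at h
          have hbl : b ≠ l := fun h => hlA (h ▸ hb)
          apply hin
          rw [Finset.mem_image]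
          exact ⟨b, hb, (eq_cross hbl h (cross_ort_right hla)).symm⟩

/-- `∑ (mult - 1)` -/
noncomputable def Phi (A : Finset RP2) : ℕ := ∑ p ∈ V A, (mult A p - 1)

open scoped Classical in
lemma Phi_insert {A : Finset RP2} {l : RP2} (hl : l ∉ A) :
    Phi (insert l A) = Phi A + (A.image (fun a => cross a l)).card := by
  have h1 : Phi A = ∑ p ∈ V (insert l A), (mult A p - 1) :=
    sum_over_bigger (V_subset_insert A l) (fun j => j - 1) rfl rfl
  have h2 : (A.image (fun a => cross a l)).card =
      ∑ p ∈ V (insert l A), if (p.orthogonal l ∧ 1 ≤ mult A p) then 1 else 0 := by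
    rw [Finset.card_eq_sum_ones, ← Finset.sum_filter]
    congr 1
    ext p
    simp only [Finset.mem_filter, Finset.mem_image]
    constructor
    · rintro ⟨a, ha, rfl⟩
      have hne : a ≠ l := fun h => hl (h ▸ ha)
      refine ⟨?_, cross_ort_right hne, ?_⟩
      · rw [mem_V]
        exact ⟨a, Finset.mem_insert_of_mem ha, l, Finset.mem_insert_self _ _, hne,
          cross_ort_left hne, cross_ort_right hne⟩
      · unfold mult
        rw [Nat.one_le_iff_ne_zero, ← Nat.pos_iff_ne_zero, Finset.card_pos]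
        exact ⟨a, by rw [Finset.mem_filter]; exact ⟨ha, cross_ort_left hne⟩⟩
    · rintro ⟨_, h', h''⟩
      unfold mult at h''
      rw [Nat.one_le_iff_ne_zero, ← Nat.pos_iff_ne_zero, Finset.card_pos] at h''
      obtain ⟨a, ha⟩ := h''
      rw [Finset.mem_filter] at ha
      have hne : a ≠ l := fun h => hl (h ▸ ha.1)
      exact ⟨a, ha.1, (eq_cross hne ha.2 h').symm⟩
  rw [h1, h2, ← Finset.sum_add_distrib]
  unfold Phi
  apply Finset.sum_congr rfl
  intro p hp
  rw [mult_insert hl p]
  by_cases h : p.orthogonal l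
  · rw [if_pos h]
    by_cases h' : 1 ≤ mult A p
    · rw [if_pos ⟨h, h'⟩]; omega
    · rw [if_neg (fun hh => h' hh.2)]; omega
  · rw [if_neg h, if_neg (fun hh => h hh.1)]; rfl

lemma card_Rg_top (A : Finset RP2) (hA : A.Nonempty) : (Rg ⊤ A).card = 2 * (1 + Phi A) := by
  classical
  induction A using Finset.induction_on with
  | empty => exact absurd hA Finset.not_nonempty_empty
  | insert l A hl ih =>
    have hy : ∃ y ∈ (⊤ : Submodule ℝ (Fin 3 → ℝ)), l.rep ⬝ᵥ y ≠ 0 := by
      refine ⟨l.rep, trivial, ?_⟩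
      intro h
      rw [dotProduct_self_eq_zero] at h
      exact Projectivization.rep_nonzero l h
    rw [split_aux ⊤ A l hl hy, top_inf_eq, card_Rg_K l A hl, Phi_insert hl]
    by_cases hA' : A = ∅
    · subst hA'
      rw [if_pos rfl, Rg_empty]
      simp [Phi, V]
    · rw [if_neg hA', ih (Finset.nonempty_iff_ne_empty.2 hA')]
      ring

end Pool.Agent.H89.Arr
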