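import Pool.Agent.H89.Arr.Comp
import Pool.Agent.H89.Arr.Base

open scoped LinearAlgebra.Projectivization
open Projectivization

namespace Pool.Agent.H89.Arr

/-- The arithmetic condition. -/
def TriCond (F G : ℕ) : Prop :=
  ∃ n : ℕ, ∃ s : Multiset ℕ, s.sum = G ∧
    F + 2 * G + (s.map (fun x => x.choose 2)).sum = n.choose 2

lemma necessary {F G : ℕ} (h : Realised F (F + 1 + G)) : TriCond F G := by
  obtain ⟨A, ⟨hA1, hA2⟩, h0, h2⟩ := h
  have hne : A.Nonempty := by
    rw [← Finset.card_pos]; omega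
  rw [numVertices_eq] at h0
  rw [numFaces_eq hne, h0] at h2
  have hg : gv A = G := by omega
  refine ⟨A.card, (V A).val.map (fun p => mult A p - 2), ?_, ?_⟩
  · rw [← hg]; rfl
  · rw [← choose_card A, h0, hg]
    congr 1
    rw [Multiset.map_map]
    rfl

lemma sufficient {n F G e : ℕ} (h : Rz n G e) (hn : n.choose 2 = F + 2 * G + e) (hF : 2 ≤ F) :
    Realised F (F + 1 + G) := by
  obtain ⟨A, h1, h2, h3⟩ := h
  have h4 := choose_card A
  rw [h1, h2, h3, hn] at h4
  have h5 : (V A).card = F := by omega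
  have hn3 : 3 ≤ n := by
    by_contra h
    have h6 : n = 0 ∨ n = 1 ∨ n = 2 := by omega
    rcases h6 with rfl | rfl | rfl <;> simp at hn <;> omega
  refine ⟨A, ⟨by omega, ?_⟩, by rw [numVertices_eq, h5], ?_⟩
  · rintro ⟨p, hp⟩
    have h6 : V A ⊆ {p} := by
      intro r hr
      rw [mem_V] at hr
      obtain ⟨l, hl, l', hl', hne, h7, h8⟩ := hr
      rw [Finset.mem_singleton, eq_cross hne h7 h8, eq_cross hne (hp l hl) (hp l' hl')]
    have h7 := Finset.card_le_card h6
    rw [Finset.card_singleton] at h7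
    omega
  · have hne : A.Nonempty := by
      rw [← Finset.card_pos]; omega
    rw [numFaces_eq hne, h2, h5]
    omega

lemma filter_sum_map (s : Multiset ℕ) (f : ℕ → ℕ) (hf : f 0 = 0) :
    ((s.filter (fun x => x ≠ 0)).map f).sum = (s.map f).sum := by
  induction s using Multiset.induction_on with
  | empty => simp
  | cons a s ih =>
    by_cases ha : a = 0
    · subst ha
      have h1 : Multiset.filter (fun x : ℕ => x ≠ 0) (0 ::ₘ s) =
          Multiset.filter (fun x : ℕ => x ≠ 0) s := Multiset.filter_cons_of_neg s (by simp)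
      rw [h1, ih, Multiset.map_cons, Multiset.sum_cons, hf,
        zero_add]
    · have h1 : Multiset.filter (fun x : ℕ => x ≠ 0) (a ::ₘ s) =
          a ::ₘ Multiset.filter (fun x : ℕ => x ≠ 0) s := Multiset.filter_cons_of_pos s ha
      rw [h1, Multiset.map_cons, Multiset.sum_cons, ih,
        Multiset.map_cons, Multiset.sum_cons]

lemma sum_add_two_le (s : Multiset ℕ) (h : ∀ x ∈ s, x ≠ 0) :
    (s.map (fun x => x + 2)).sum ≤ 3 * s.sum := by
  induction s using Multiset.induction_on with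
  | empty => simp
  | cons a s ih =>
    have ha : a ≠ 0 := h a (Multiset.mem_cons_self a s)
    have h1 := ih (fun x hx => h x (Multiset.mem_cons_of_mem hx))
    simp only [Multiset.map_cons, Multiset.sum_cons]
    omega

lemma small_regime {F G : ℕ} (hF : 2 ≤ F) (hG : 16 * G ^ 2 ≤ F) (h : TriCond F G) :
    Realised F (F + 1 + G) := by
  obtain ⟨n, s, hs, hn⟩ := h
  set s' := s.filter (fun x => x ≠ 0) with hs'
  have h1 := Rz_multiset Rz_zero s'
  have h2 : s'.sum = G := by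
    have := filter_sum_map s (fun x => x) rfl
    rw [Multiset.map_id', Multiset.map_id'] at this
    rw [hs', this, hs]
  have h3 : (s'.map (fun x => x.choose 2)).sum = (s.map (fun x => x.choose 2)).sum :=
    filter_sum_map s _ rfl
  have h4 : (s'.map (fun x => x + 2)).sum ≤ 3 * s'.sum := by
    apply sum_add_two_le
    intro x hx
    rw [hs', Multiset.mem_filter] at hx
    exact hx.2
  rw [h2, h3] at h1
  rw [h2] at h4
  simp only [zero_add] at h1
  have h5 : 2 * n.choose 2 = n * n - n := choose_two_double n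
  have h6 : 3 * G ≤ n := by
    by_contra hc
    have h7 : n < 3 * G := by omega
    have h8 : n * n < 9 * G ^ 2 := by nlinarith
    have h9 : n * n - n ≤ n * n := Nat.sub_le _ _
    omega
  exact sufficient (Rz_generics h1 n (by omega)) (by omega) hF

/-- Filling up with pencils. -/
lemma fill {n0 G0 e0 n L E b : ℕ} (h : Rz n0 G0 e0) (hn : n0 + 3 * L + 2 ≤ n)
    (hE : E < (b + 1).choose 2) (hL : 3 * b ≤ L) : Rz n (G0 + L) (e0 + E) := by
  have hb : 1 ≤ b := by
    by_contra hc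
    have : b = 0 := by omega
    subst this
    simp at hE
  set a := Nat.findGreatest (fun a => a.choose 2 ≤ E) b with ha
  have ha1 : a.choose 2 ≤ E := by
    have := Nat.findGreatest_spec (P := fun a => a.choose 2 ≤ E) (Nat.zero_le b) (by simp)
    exact this
  have hab : a ≤ b := Nat.findGreatest_le b
  have ha2 : E < (a + 1).choose 2 := by
    by_contra hc
    have hc' : (a + 1).choose 2 ≤ E := by omega
    rcases hab.eq_or_lt with h1 | h1
    · rw [h1] at hc'; omega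
    · exact Nat.findGreatest_is_greatest (P := fun a => a.choose 2 ≤ E) (n := b) (k := a + 1)
        (by omega) (by omega) hc'
  have ha3 : (a + 1).choose 2 = a + a.choose 2 := by
    rw [Nat.choose_succ_succ' a 1, Nat.choose_one_right]
  set c := E - a.choose 2 with hc
  have hca : c < a := by omega
  have h1 := Rz_multiset h ({a} + Multiset.replicate c 2 + Multiset.replicate (L - a - 2 * c) 1)
  have e1 : (({a} + Multiset.replicate c 2 + Multiset.replicate (L - a - 2 * c) 1 :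
      Multiset ℕ).map (fun x => x + 2)).sum ≤ 3 * L + 2 := by
    simp only [Multiset.map_add, Multiset.sum_add, Multiset.map_singleton, Multiset.sum_singleton,
      Multiset.map_replicate, Multiset.sum_replicate, smul_eq_mul]
    omega
  have e2 : ({a} + Multiset.replicate c 2 + Multiset.replicate (L - a - 2 * c) 1 :
      Multiset ℕ).sum = L := by
    simp only [Multiset.sum_add, Multiset.sum_singleton, Multiset.sum_replicate, smul_eq_mul]
    omega
  have e3 : (({a} + Multiset.replicate c 2 + Multiset.replicate (L - a - 2 * c) 1 :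
      Multiset ℕ).map (fun x => x.choose 2)).sum = E := by
    simp only [Multiset.map_add, Multiset.sum_add, Multiset.map_singleton, Multiset.sum_singleton,
      Multiset.map_replicate, Multiset.sum_replicate, smul_eq_mul]
    simp
    omega
  rw [e2, e3] at h1
  exact Rz_generics h1 n (by omega)

/-- The least `n` with `X ≤ C(n,2)`. -/
lemma exists_tri (X : ℕ) (hX : 1 ≤ X) : ∃ n E : ℕ, n.choose 2 = X + E ∧ E + 2 ≤ n ∧
    (n - 1).choose 2 < X ∧ 2 ≤ n := by
  have hex : ∃ n : ℕ, X ≤ n.choose 2 := by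
    refine ⟨X + 1, ?_⟩
    rw [Nat.choose_succ_succ' X 1, Nat.choose_one_right]
    omega
  classical
  set n := Nat.find hex with hn
  have h1 : X ≤ n.choose 2 := Nat.find_spec hex
  have h2 : 2 ≤ n := by
    by_contra hc
    have h3 : n = 0 ∨ n = 1 := by omega
    rcases h3 with h3 | h3 <;> rw [h3] at h1 <;> simp at h1 <;> omega
  have h3 : (n - 1).choose 2 < X := by
    by_contra hc
    exact Nat.find_min hex (m := n - 1) (by omega) (by omega)
  refine ⟨n, n.choose 2 - X, by omega, ?_, h3, h2⟩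
  clear_value n
  obtain ⟨i, rfl⟩ : ∃ i, n = i + 1 := ⟨n - 1, by omega⟩
  simp only [Nat.add_sub_cancel] at h3
  rw [Nat.choose_succ_succ' i 1, Nat.choose_one_right]
  have : i.choose (1 + 1) = i.choose 2 := rfl
  omega

/-- Region `9 q ≤ G`, `16 G² ≤ F`: no base needed. -/
lemma regime_one {F G q : ℕ} (hq : 125 ≤ q) (hF2 : F < ((q + 1) ^ 2) ^ 2)
    (hG : 16 * G ^ 2 ≤ F) (hGq : 9 * q ≤ G) : Realised F (F + 1 + G) := by
  have hG1 : 1 ≤ G := by omega
  have hF : 2 ≤ F := by nlinarith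
  obtain ⟨n, E, h1, h2, h3, h4⟩ := exists_tri (F + 2 * G) (by omega)
  obtain ⟨i, rfl⟩ : ∃ i, n = i + 2 := ⟨n - 2, by omega⟩
  have h5 : 2 * (i + 2).choose 2 = (i + 2) * (i + 2) - (i + 2) := choose_two_double _
  have h6 : 2 * (i + 2 - 1).choose 2 = (i + 2 - 1) * (i + 2 - 1) - (i + 2 - 1) :=
    choose_two_double _
  have h7 : i + 2 - 1 = i + 1 := by omega
  rw [h7] at h3 h6
  have h8 : (i + 1) * (i + 1) - (i + 1) = i * i + i := by
    have : (i + 1) * (i + 1) = i * i + i + (i + 1) := by ring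
    omega
  have h9 : (i + 2) * (i + 2) - (i + 2) = i * i + 3 * i + 2 := by
    have : (i + 2) * (i + 2) = i * i + 3 * i + 2 + (i + 2) := by ring
    omega
  rw [h8] at h6
  rw [h9] at h5
  -- upper bound for `n`
  have hGF : G ≤ F := by nlinarith
  have hi : i < 3 * (q + 1) ^ 2 := by
    by_contra hc
    have hc' : 3 * (q + 1) ^ 2 ≤ i := by omega
    have h10 : (3 * (q + 1) ^ 2) * (3 * (q + 1) ^ 2) ≤ i * i := Nat.mul_le_mul hc' hc'
    have h11 : (3 * (q + 1) ^ 2) * (3 * (q + 1) ^ 2) = 9 * ((q + 1) ^ 2) ^ 2 := by ring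
    rw [h11] at h10
    omega
  have hlow : 3 * G + 2 ≤ i + 2 := by
    by_contra hc
    have hc' : i + 1 ≤ 3 * G := by omega
    have h10 : (i + 1) * (i + 1) ≤ (3 * G) * (3 * G) := Nat.mul_le_mul hc' hc'
    nlinarith
  have hb : E < (3 * q + 1).choose 2 := by
    have h10 : 2 * (3 * q + 1).choose 2 = (3 * q + 1) * (3 * q + 1) - (3 * q + 1) :=
      choose_two_double _
    have h11 : (3 * q + 1) * (3 * q + 1) - (3 * q + 1) = 9 * q ^ 2 + 3 * q := by
      have : (3 * q + 1) * (3 * q + 1) = 9 * q ^ 2 + 3 * q + (3 * q + 1) := by ring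
      omega
    rw [h11] at h10
    nlinarith
  have h12 := fill Rz_zero (n := i + 2) (L := G) (E := E) (b := 3 * q) (by omega) hb (by omega)
  simp only [zero_add] at h12
  exact sufficient h12 h1 hF

lemma choose_low (k : ℕ) (hk : 2 ≤ k) : 2 * (k - 2).choose 2 + (5 * k) = k * k + 6 := by
  obtain ⟨i, rfl⟩ : ∃ i, k = i + 2 := ⟨k - 2, by omega⟩
  simp only [Nat.add_sub_cancel]
  rw [choose_two_double]
  have h3 : i ≤ i * i := Nat.le_mul_self i
  have : (i + 2) * (i + 2) = i * i + 4 * i + 4 := by ring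
  omega

lemma main_ineq {F G q r w k dl i e0 E N rho : ℕ} (hq : 125 ≤ q)
    (hc' : i + 2 ≤ (r + 1) + 37 * q) (hrho : (r + 1) * (r + 1) = 8 * N + rho)
    (hrho2 : rho ≤ 2 * r + 1) (hN : N + 9 * q = G + 2)
    (h5 : 2 * (F + 2 * G + e0 + E) = i * i + 3 * i + 2) (hcl : 2 * e0 + 5 * k = k * k + 6)
    (h2k : 2 * k + w + dl = r) (hdl : dl ≤ 3) (hr5 : r ≤ 4 * q ^ 2) (hw3 : w ≤ 3 * q)
    (hGF : G + 2000 * q ^ 3 < F) : False := by
  have h10 : (i + 2) * (i + 2) ≤ ((r + 1) + 37 * q) * ((r + 1) + 37 * q) :=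
    Nat.mul_le_mul hc' hc'
  have h11 : ((r + 1) + 37 * q) * ((r + 1) + 37 * q) =
    (r + 1) * (r + 1) + 74 * (r * q) + 74 * q + 1369 * (q * q) := by ring
  rw [h11] at h10
  have h12 : (i + 2) * (i + 2) = i * i + 4 * i + 4 := by ring
  rw [h12] at h10
  -- lower bound for k * k
  have h13 : r * r = 4 * (k * k) + 4 * (k * (w + dl)) + (w + dl) * (w + dl) := by
    rw [← h2k]; ring
  have h14 : 2 * (k * (w + dl)) ≤ r * (w + 3) := by
    have : 2 * k ≤ r := by omega
    calc 2 * (k * (w + dl)) = (2 * k) * (w + dl) := by ring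
      _ ≤ r * (w + 3) := Nat.mul_le_mul this (by omega)
  have h15 : (w + dl) * (w + dl) ≤ r * (w + 3) := Nat.mul_le_mul (by omega) (by omega)
  have h16 : r * (w + 3) = r * w + 3 * r := by ring
  have hrr : (r + 1) * (r + 1) = r * r + 2 * r + 1 := by ring
  have h17 : r * q ≤ 4 * q ^ 3 := by
    calc r * q ≤ (4 * q ^ 2) * q := Nat.mul_le_mul_right q hr5
      _ = 4 * q ^ 3 := by ring
  have h18 : r * w ≤ 12 * q ^ 3 := by
    calc r * w ≤ (4 * q ^ 2) * (3 * q) := Nat.mul_le_mul hr5 hw3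
      _ = 12 * q ^ 3 := by ring
  have h19 : q * q = q ^ 2 := by ring
  have h20 : q ^ 2 * 125 ≤ q ^ 3 := by
    calc q ^ 2 * 125 ≤ q ^ 2 * q := Nat.mul_le_mul_left _ hq
      _ = q ^ 3 := by ring
  have h21 : q ≤ q ^ 2 := by
    calc q = q * 1 := by ring
      _ ≤ q * q := Nat.mul_le_mul_left _ (by omega)
      _ = q ^ 2 := by ring
  have h22 : 2 * k ≤ r := by omega
  rw [h19] at h10
  linarith

/-- Region `16 G² > F`, `G + 2000 q³ < F`. -/
lemma regime_two {F G q : ℕ} (hq : 125 ≤ q) (hF1 : (q ^ 2) ^ 2 ≤ F)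
    (hF2 : F < ((q + 1) ^ 2) ^ 2) (hG : F < 16 * G ^ 2) (hGF : G + 2000 * q ^ 3 < F) :
    Realised F (F + 1 + G) := by
  have hGq : q ^ 2 < 4 * G := by
    by_contra hc
    have hc' : 4 * G ≤ q ^ 2 := by omega
    have : (4 * G) * (4 * G) ≤ q ^ 2 * q ^ 2 := Nat.mul_le_mul hc' hc'
    nlinarith
  have hGq' : 9 * q + 100 ≤ G := by nlinarith
  obtain ⟨N, hN⟩ : ∃ N, N + 9 * q = G + 2 := ⟨G + 2 - 9 * q, by omega⟩
  -- sigma
  set sg := Nat.sqrt (8 * N) + 1 with hsg
  have hs1 : 8 * N < sg * sg := Nat.lt_succ_sqrt (8 * N)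
  have hs2 : (sg - 1) * (sg - 1) ≤ 8 * N := by
    rw [hsg, Nat.add_sub_cancel]
    exact Nat.sqrt_le (8 * N)
  obtain ⟨r, hr⟩ : ∃ r, sg = r + 1 := ⟨sg - 1, by omega⟩
  clear_value sg
  subst hr
  rw [Nat.add_sub_cancel] at hs2
  clear hsg
  -- rho
  obtain ⟨rho, hrho⟩ : ∃ rho, (r + 1) * (r + 1) = 8 * N + rho :=
    ⟨(r + 1) * (r + 1) - 8 * N, by omega⟩
  have hrr : (r + 1) * (r + 1) = r * r + 2 * r + 1 := by ring
  have hrho2 : rho ≤ 2 * r + 1 := by omega
  set w := Nat.sqrt rho with hw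
  have hw1 : w * w ≤ rho := Nat.sqrt_le rho
  have hw2 : rho < (w + 1) * (w + 1) := Nat.lt_succ_sqrt rho
  clear_value w
  clear hw
  -- bounds
  have hq1 : 60 * (q + 1) ^ 2 ≤ 61 * q ^ 2 := by nlinarith
  have hF3 : 3600 * F < 3721 * (q ^ 2) ^ 2 := by
    have h1 : (60 * (q + 1) ^ 2) * (60 * (q + 1) ^ 2) ≤ (61 * q ^ 2) * (61 * q ^ 2) :=
      Nat.mul_le_mul hq1 hq1
    have h2 : (60 * (q + 1) ^ 2) * (60 * (q + 1) ^ 2) = 3600 * ((q + 1) ^ 2) ^ 2 := by ring
    have h3 : (61 * q ^ 2) * (61 * q ^ 2) = 3721 * (q ^ 2) ^ 2 := by ring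
    omega
  have hr4 : r < 3 * (q + 1) ^ 2 := by
    by_contra hc
    have hc' : 3 * (q + 1) ^ 2 ≤ r := by omega
    have h10 : (3 * (q + 1) ^ 2) * (3 * (q + 1) ^ 2) ≤ r * r := Nat.mul_le_mul hc' hc'
    have h11 : (3 * (q + 1) ^ 2) * (3 * (q + 1) ^ 2) = 9 * ((q + 1) ^ 2) ^ 2 := by ring
    rw [h11] at h10
    have h12 : 125 ^ 2 ≤ (q + 1) ^ 2 := Nat.pow_le_pow_left (by omega) 2
    have h13 : (125 ^ 2) ^ 2 ≤ ((q + 1) ^ 2) ^ 2 := Nat.pow_le_pow_left h12 2
    omega
  have hr5 : r ≤ 4 * q ^ 2 := by omega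
  have hw3 : w ≤ 3 * q := by
    by_contra hc
    have hc' : 3 * q + 1 ≤ w := by omega
    have h10 : (3 * q + 1) * (3 * q + 1) ≤ w * w := Nat.mul_le_mul hc' hc'
    have h11 : (3 * q + 1) * (3 * q + 1) = 9 * q ^ 2 + 6 * q + 1 := by ring
    omega
  have hrq : q ≤ r := by
    by_contra hc
    have hc' : r + 1 ≤ q := by omega
    have h10 : (r + 1) * (r + 1) ≤ q * q := Nat.mul_le_mul hc' hc'
    have h11 : q * q = q ^ 2 := by ring
    have h12 : 125 * q ≤ q * q := Nat.mul_le_mul_right q hq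
    omega
  have hwr : w + 7 ≤ r := by
    by_contra hc
    have hc' : r ≤ w + 6 := by omega
    obtain ⟨j, rfl⟩ : ∃ j, r = j + 6 := ⟨r - 6, by omega⟩
    have h10 : j * j ≤ w * w := Nat.mul_le_mul (by omega) (by omega)
    have h11 : 100 * j ≤ j * j := Nat.mul_le_mul_right j (by omega)
    omega
  -- delta
  obtain ⟨dl, t, hdl, ht⟩ : ∃ dl t : ℕ, dl ≤ 3 ∧ 4 * t = r + 2 + w + dl :=
    ⟨(4 - (r + 2 + w) % 4) % 4, (r + 2 + w + (4 - (r + 2 + w) % 4) % 4) / 4, by omega, by omega⟩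
  obtain ⟨k, hk⟩ : ∃ k, k + (w + 1 + dl) = 2 * t := ⟨2 * t - (w + 1 + dl), by omega⟩
  have hk2 : 2 ≤ k := by omega
  have hkr : 2 * t + k = r + 1 := by omega
  have h2k : 2 * k + w + dl = r := by omega
  have hkt : 8 * (k * t) + (w + 1 + dl) * (w + 1 + dl) = (r + 1) * (r + 1) := by
    rw [← hkr]
    have h1 : 2 * t = k + (w + 1 + dl) := hk.symm
    have h2 : 8 * (k * t) = 4 * (k * (2 * t)) := by ring
    rw [h2, h1]
    ring
  have hktN : k * t < N := by
    have : (w + 1) * (w + 1) ≤ (w + 1 + dl) * (w + 1 + dl) :=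
      Nat.mul_le_mul (by omega) (by omega)
    omega
  have hktN2 : N ≤ k * t + w + 2 := by
    have h1 : (w + 1 + dl) * (w + 1 + dl) ≤ (w + 4) * (w + 4) :=
      Nat.mul_le_mul (by omega) (by omega)
    have h2 : (w + 4) * (w + 4) = w * w + 8 * w + 16 := by ring
    omega
  -- base
  have hbase := Rz_base (m := 2 * t - 1) (k := k) (by rw [Nat.odd_iff]; omega) hk2 (by omega)
  have hb1 : 2 * t - 1 + k = r := by omega
  have hb2 : (2 * t - 1 - 1) / 2 = t - 1 := by omega
  rw [hb1, hb2] at hbase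
  obtain ⟨t', rfl⟩ : ∃ t', t = t' + 1 := ⟨t - 1, by omega⟩
  rw [Nat.add_sub_cancel] at hbase
  have hG0 : k - 2 + k * t' + 2 = k * (t' + 1) := by
    have : k * (t' + 1) = k * t' + k := by ring
    omega
  set G0 := k - 2 + k * t' with hG0'
  set e0 := (k - 2).choose 2 with he0
  obtain ⟨L, hL⟩ : ∃ L, G0 + L = G := ⟨G - G0, by omega⟩
  have hL1 : 9 * q ≤ L := by omega
  have hL2 : L ≤ 9 * q + w + 2 := by omega
  have hcl := choose_low k hk2
  rw [← he0] at hcl
  obtain ⟨n, E, h1, h2, h3, h4⟩ := exists_tri (F + 2 * G + e0) (by omega)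
  obtain ⟨i, rfl⟩ : ∃ i, n = i + 2 := ⟨n - 2, by omega⟩
  have h5 : 2 * (i + 2).choose 2 = (i + 2) * (i + 2) - (i + 2) := choose_two_double _
  have h6 : 2 * (i + 2 - 1).choose 2 = (i + 2 - 1) * (i + 2 - 1) - (i + 2 - 1) :=
    choose_two_double _
  have h7 : i + 2 - 1 = i + 1 := by omega
  rw [h7] at h3 h6
  have h8 : (i + 1) * (i + 1) - (i + 1) = i * i + i := by
    have : (i + 1) * (i + 1) = i * i + i + (i + 1) := by ring
    omega
  have h9 : (i + 2) * (i + 2) - (i + 2) = i * i + 3 * i + 2 := by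
    have : (i + 2) * (i + 2) = i * i + 3 * i + 2 + (i + 2) := by ring
    omega
  rw [h8] at h6
  rw [h9] at h5
  have hkq : k ≤ 2 * q ^ 2 := by omega
  have hkk : k * k ≤ 4 * (q ^ 2) ^ 2 := by
    calc k * k ≤ (2 * q ^ 2) * (2 * q ^ 2) := Nat.mul_le_mul hkq hkq
      _ = 4 * (q ^ 2) ^ 2 := by ring
  have hq4 : 125 ^ 2 ≤ (q ^ 2) ^ 2 := by
    have h12 : 125 ^ 2 ≤ q ^ 2 := Nat.pow_le_pow_left hq 2
    calc 125 ^ 2 ≤ (125 ^ 2) ^ 2 := by norm_num
      _ ≤ (q ^ 2) ^ 2 := Nat.pow_le_pow_left h12 2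
  have hi : i < 4 * q ^ 2 := by
    by_contra hc
    have hc' : 4 * q ^ 2 ≤ i := by omega
    have h10 : (4 * q ^ 2) * (4 * q ^ 2) ≤ i * i := Nat.mul_le_mul hc' hc'
    have h11 : (4 * q ^ 2) * (4 * q ^ 2) = 16 * (q ^ 2) ^ 2 := by ring
    rw [h11] at h10
    omega
  have hb : E < (3 * q + 1).choose 2 := by
    have h10 : 2 * (3 * q + 1).choose 2 = (3 * q + 1) * (3 * q + 1) - (3 * q + 1) :=
      choose_two_double _
    have h11 : (3 * q + 1) * (3 * q + 1) - (3 * q + 1) = 9 * q ^ 2 + 3 * q := by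
      have : (3 * q + 1) * (3 * q + 1) = 9 * q ^ 2 + 3 * q + (3 * q + 1) := by ring
      omega
    rw [h11] at h10
    omega
  -- main inequality
  have hlow : r + 3 * L + 2 ≤ i + 2 := by
    by_contra hc
    have hc' : i + 2 ≤ (r + 1) + 37 * q := by omega
    exact main_ineq hq hc' hrho hrho2 hN (by rw [← h1, h5]) hcl h2k hdl hr5 hw3 hGF
  have h23 := fill hbase (n := i + 2) (L := L) (E := E) (b := 3 * q) (by omega) hb (by omega)
  rw [hL] at h23
  exact sufficient h23 (by omega) (by omega)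

end Pool.Agent.H89.Arr
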