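import Pool.Agent.H89.Arr.Add

open scoped LinearAlgebra.Projectivization
open Projectivization

namespace Pool.Agent.H89.Arr.Poly

set_option linter.unusedSectionVars false

variable (m : ℕ) [NeZero m]

/-- tangent angle -/
noncomputable def th (j : ZMod m) : ℝ := 2 * Real.pi * (j.val : ℝ) / m
/-- central line angle -/
noncomputable def ph (i : ZMod m) : ℝ := Real.pi * (i.val : ℝ) / m

/-- vector of the tangent line at angle `t` -/
noncomputable def av (t : ℝ) : Fin 3 → ℝ := ![Real.cos t, Real.sin t, 1]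
/-- vector of the central line with direction `t` -/
noncomputable def bv (t : ℝ) : Fin 3 → ℝ := ![-Real.sin t, Real.cos t, 0]
/-- intersection of tangent at `t` and central line with direction `s` -/
noncomputable def pv (t s : ℝ) : Fin 3 → ℝ := ![-Real.cos s, -Real.sin s, Real.cos (t - s)]

lemma av_ne (t : ℝ) : av t ≠ 0 := by
  intro h
  have := congrFun h 2
  simp [av] at this

lemma bv_ne (t : ℝ) : bv t ≠ 0 := by
  intro h
  have h0 := congrFun h 0
  have h1 := congrFun h 1
  simp [bv] at h0 h1
  have := Real.sin_sq_add_cos_sq t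
  rw [h0, h1] at this
  norm_num at this

lemma pv_ne (t s : ℝ) : pv t s ≠ 0 := by
  intro h
  have h0 := congrFun h 0
  have h1 := congrFun h 1
  simp [pv] at h0 h1
  have := Real.sin_sq_add_cos_sq s
  rw [h0, h1] at this
  norm_num at this

/-- centre -/
noncomputable def O : RP2 := Projectivization.mk ℝ ![0, 0, 1] (by
  intro h
  have := congrFun h 2
  simp at this)

noncomputable def a (j : ZMod m) : RP2 := Projectivization.mk ℝ (av (th m j)) (av_ne _)
noncomputable def b (i : ZMod m) : RP2 := Projectivization.mk ℝ (bv (ph m i)) (bv_ne _)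
noncomputable def P (j i : ZMod m) : RP2 :=
  Projectivization.mk ℝ (pv (th m j) (ph m i)) (pv_ne _ _)

lemma hm0 : (m : ℝ) ≠ 0 := by exact_mod_cast NeZero.ne m

lemma eq_of_val {j l : ZMod m} {z : ℤ} (h : (j.val : ℤ) - l.val = z * m) : j = l := by
  have h1 : ((j.val : ℤ) : ZMod m) - ((l.val : ℤ) : ZMod m) = 0 := by
    rw [← Int.cast_sub, h]
    simp
  simp at h1
  exact sub_eq_zero.1 h1

lemma cos_eq {j l i : ZMod m} :
    Real.cos (th m j - ph m i) = Real.cos (th m l - ph m i) ↔ j = l ∨ j + l = i := by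
  have hm := hm0 m
  have hpi := Real.pi_ne_zero
  rw [Real.cos_eq_cos_iff]
  constructor
  · rintro ⟨z, h | h⟩
    · left
      unfold th ph at h
      have h2 : ((l.val : ℝ) - j.val) = z * m := by
        field_simp at h
        linarith
      have h5 : ((l.val : ℤ) - j.val) = z * m := by exact_mod_cast h2
      exact (eq_of_val m h5).symm
    · right
      unfold th ph at h
      have h2 : ((j.val : ℝ) + l.val - i.val) = z * m := by
        field_simp at h
        linarith
      have h5 : ((j.val : ℤ) + l.val - i.val) = z * m := by exact_mod_cast h2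
      have h6 : ((((j.val : ℤ) + l.val - i.val : ℤ)) : ZMod m) = 0 := by rw [h5]; simp
      push_cast at h6
      simp at h6
      exact sub_eq_zero.1 h6
  · rintro (rfl | h)
    · exact ⟨0, Or.inl (by simp)⟩
    · have h1 : (((j.val : ℤ) + l.val - i.val : ℤ) : ZMod m) = 0 := by
        push_cast
        simp [h]
      rw [ZMod.intCast_zmod_eq_zero_iff_dvd] at h1
      obtain ⟨z, hz⟩ := h1
      refine ⟨z, Or.inr ?_⟩
      have h2 : ((j.val : ℝ) + l.val - i.val) = m * z := by exact_mod_cast hz
      unfold th ph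
      field_simp
      linear_combination (2 : ℝ) * h2

lemma P_ort_b (j i : ZMod m) : (P m j i).orthogonal (b m i) := by
  unfold P b
  rw [orthogonal_mk]
  simp [pv, bv, dotProduct, Fin.sum_univ_three]
  ring

lemma P_ort_a (j i l : ZMod m) : (P m j i).orthogonal (a m l) ↔ j = l ∨ j + l = i := by
  unfold P a
  rw [orthogonal_mk, ← cos_eq]
  have : pv (th m j) (ph m i) ⬝ᵥ av (th m l) =
      Real.cos (th m j - ph m i) - Real.cos (th m l - ph m i) := by
    rw [Real.cos_sub (th m l)]
    simp [pv, av, dotProduct, Fin.sum_univ_three]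
    ring
  rw [this, sub_eq_zero]

lemma a_inj : Function.Injective (a m) := by
  intro j l h
  unfold a at h
  rw [Projectivization.mk_eq_mk_iff'] at h
  obtain ⟨c, hc⟩ := h
  have h2 := congrFun hc 2
  simp [av] at h2
  rw [h2, one_smul] at hc
  have h0 := congrFun hc 0
  have h1 := congrFun hc 1
  simp [av] at h0 h1
  have h3 : Real.cos (th m j - th m l) = 1 := by
    rw [Real.cos_sub, h0, h1]
    nlinarith [Real.sin_sq_add_cos_sq (th m j)]
  rw [Real.cos_eq_one_iff] at h3
  obtain ⟨z, hz⟩ := h3
  unfold th at hz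
  have hm := hm0 m
  have hpi := Real.pi_ne_zero
  field_simp at hz
  have h3 : Real.pi * (2 * ((j.val : ℝ) - l.val)) = Real.pi * (2 * (z * m)) := by
    linear_combination -(1 : ℝ) * Real.pi * 2 * hz
  have h4 := mul_left_cancel₀ hpi h3
  have h5 : ((j.val : ℝ) - l.val) = z * m := by linarith
  have h5 : ((j.val : ℤ) - l.val) = z * m := by exact_mod_cast h5
  exact eq_of_val m h5

lemma b_inj : Function.Injective (b m) := by
  intro j l h
  unfold b at h
  rw [Projectivization.mk_eq_mk_iff_crossProduct_eq_zero, cross_apply] at h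
  have h2 := congrFun h 2
  simp [bv] at h2
  have h3 : Real.sin (ph m j - ph m l) = 0 := by
    rw [Real.sin_sub]; linarith
  rw [Real.sin_eq_zero_iff] at h3
  obtain ⟨z, hz⟩ := h3
  unfold ph at hz
  have hm := hm0 m
  have hpi := Real.pi_ne_zero
  field_simp at hz
  have h5 : ((j.val : ℤ) - l.val) = z * m := by
    have h6 : ((j.val : ℝ) - l.val) = z * m := by linarith
    exact_mod_cast h6
  exact eq_of_val m h5

lemma a_ne_b (j i : ZMod m) : a m j ≠ b m i := by
  intro h
  unfold a b at h
  rw [Projectivization.mk_eq_mk_iff'] at h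
  obtain ⟨c, hc⟩ := h
  have h2 := congrFun hc 2
  simp [av, bv] at h2

lemma O_ort_b (i : ZMod m) : O.orthogonal (b m i) := by
  unfold O b
  rw [orthogonal_mk]
  simp [bv, dotProduct, Fin.sum_univ_three]

lemma O_not_ort_a (j : ZMod m) : ¬ O.orthogonal (a m j) := by
  unfold O a
  rw [orthogonal_mk]
  simp [av, dotProduct, Fin.sum_univ_three]

/-- no three tangents are concurrent -/
lemma tangents {p : RP2} {j l r : ZMod m} (hjl : j ≠ l) (h1 : p.orthogonal (a m j))
    (h2 : p.orthogonal (a m l)) (h3 : p.orthogonal (a m r)) : r = j ∨ r = l := by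
  induction p using Projectivization.ind with | h v hv =>
  unfold a at h1 h2 h3
  rw [orthogonal_mk] at h1 h2 h3
  simp [av, dotProduct, Fin.sum_univ_three] at h1 h2 h3
  have e1 := Real.sin_sq_add_cos_sq (th m j)
  have e2 := Real.sin_sq_add_cos_sq (th m l)
  have e3 := Real.sin_sq_add_cos_sq (th m r)
  have hxy : ¬ (v 0 = 0 ∧ v 1 = 0) := by
    rintro ⟨h4, h5⟩
    rw [h4, h5] at h1
    have h6 : v 2 = 0 := by linarith
    apply hv
    ext i
    fin_cases i <;> simp [h4, h5, h6]
  have key : ∀ x y : ZMod m, Real.cos (th m x) = Real.cos (th m y) →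
      Real.sin (th m x) = Real.sin (th m y) → x = y := by
    intro x y hc hs
    apply a_inj m
    unfold a
    congr 1
    unfold av
    rw [hc, hs]
  set c1 := Real.cos (th m j)
  set s1 := Real.sin (th m j)
  set c2 := Real.cos (th m l)
  set s2 := Real.sin (th m l)
  set c3 := Real.cos (th m r)
  set s3 := Real.sin (th m r)
  have hD : (c1 - c2) * (s1 - s3) - (c1 - c3) * (s1 - s2) = 0 := by
    by_cases h0 : v 0 = 0
    · have h1' : v 1 ≠ 0 := fun h => hxy ⟨h0, h⟩
      apply mul_left_cancel₀ h1'
      linear_combination (c1 - c2) * (h1 - h3) - (c1 - c3) * (h1 - h2)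
    · apply mul_left_cancel₀ h0
      linear_combination (s1 - s3) * (h1 - h2) - (s1 - s2) * (h1 - h3)
  have hu : 0 < (c1 - c2) ^ 2 + (s1 - s2) ^ 2 := by
    by_contra hh
    have ha : (c1 - c2) ^ 2 = 0 := by nlinarith [sq_nonneg (c1 - c2), sq_nonneg (s1 - s2)]
    have hb : (s1 - s2) ^ 2 = 0 := by nlinarith [sq_nonneg (c1 - c2), sq_nonneg (s1 - s2)]
    have ha' : c1 = c2 := by nlinarith [pow_eq_zero_iff (two_ne_zero) |>.1 ha]
    have hb' : s1 = s2 := by nlinarith [pow_eq_zero_iff (two_ne_zero) |>.1 hb]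
    exact hjl (key j l ha' hb')
  set N := (c1 - c2) ^ 2 + (s1 - s2) ^ 2 with hN
  obtain ⟨t, ht⟩ : ∃ t, t * N = (c1 - c3) * (c1 - c2) + (s1 - s3) * (s1 - s2) :=
    ⟨((c1 - c3) * (c1 - c2) + (s1 - s3) * (s1 - s2)) / N, div_mul_cancel₀ _ hu.ne'⟩
  have hw1 : c1 - c3 = t * (c1 - c2) := by
    apply mul_left_cancel₀ hu.ne'
    have : N * (t * (c1 - c2)) = (c1 - c2) * (t * N) := by ring
    rw [this, ht, hN]
    linear_combination -(s1 - s2) * hD
  have hw2 : s1 - s3 = t * (s1 - s2) := by
    apply mul_left_cancel₀ hu.ne'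
    have : N * (t * (s1 - s2)) = (s1 - s2) * (t * N) := by ring
    rw [this, ht, hN]
    linear_combination (c1 - c2) * hD
  have ht2 : t * (t - 1) = 0 := by
    apply mul_left_cancel₀ hu.ne'
    rw [mul_zero]
    have hc3 : c3 = c1 - t * (c1 - c2) := by linarith
    have hs3 : s3 = s1 - t * (s1 - s2) := by linarith
    rw [hc3, hs3] at e3
    rw [hN]
    linear_combination e3 - (1 - t) * e1 - t * e2
  rcases mul_eq_zero.1 ht2 with h | h
  · left
    rw [h] at hw1 hw2
    exact key r j (by linarith) (by linarith)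
  · right
    have : t = 1 := by linarith
    rw [this] at hw1 hw2
    exact key r l (by linarith) (by linarith)

end Pool.Agent.H89.Arr.Poly
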